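import Pool.Agent.L5helper91.EB.Recur

set_option autoImplicit false

namespace Pool.Agent.L5helper91.EB

open Finset

theorem pattern_qp (κ : Type) [Finite κ] (c : QP → κ)
    (hur : ∀ W : Finset QP, ∃ L : Finset QP, ∀ x Q : QP, ∃ a ∈ L, ∀ w ∈ W,
      c (w + a + Q) = c (w + x)) (F₀ : Finset QP) :
    ∃ (x : QP) (b : ℕ), 2 ≤ b ∧ c (x + EE b) = c x ∧ c (x + b • EE b) = c x ∧
      ∀ f ∈ F₀, c (x + b • f) = c x := by
  classical
  have := Fintype.ofFinite κ
  choose L hL using hur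
  have hden := fun W => denom (L W)
  choose D hDpos hD using hden
  let NN : Finset QP → ℕ := fun W => ∑ a ∈ L W, ⌊(D W : ℚ) * val a⌋₊
  obtain ⟨V, W, hstar⟩ := star κ QP EE EE_CA NN (Fintype.card κ) QP EE EE_CA 0 F₀
  have hMR : MR EE NN (fun g e : QP => c (g + e)) (fun g e : QP => c (g + e)) := by
    intro W g e b hb
    obtain ⟨a, haL, ha⟩ := hL W (g + e) (g + e + EE b + EE (D W))
    obtain ⟨k, hk1, hk⟩ := hD W a haL
    refine ⟨k, hk1, ?_, ?_⟩
    · have h1 : ⌊(D W : ℚ) * val a⌋₊ ≤ NN W :=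
        Finset.single_le_sum (f := fun a : QP => ⌊(D W : ℚ) * val a⌋₊)
          (fun _ _ => Nat.zero_le _) haL
      rw [hk, Nat.floor_natCast] at h1
      exact h1
    · intro w hw
      have hEk : EE k = EE (D W) + a := by
        apply val_inj
        rw [val_add, val_EE _ (by omega), val_EE _ (hDpos W), hk]
      have h1 := ha w hw
      have e1 : g + (e + w + EE (b * k)) = w + a + (g + e + EE b + EE (D W)) := by
        rw [EE_CA b k (by omega) (by omega), hEk]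
        abel
      have e2 : g + (e + w) = w + (g + e) := by abel
      show c (g + (e + w + EE (b * k))) = c (g + (e + w))
      rw [e1, e2]
      exact h1
  obtain ⟨g, e, b, hb, h1, h2, h3⟩ := hstar _ _ hMR (fun _ => Finset.univ)
    (fun _ _ => le_of_eq Finset.card_univ) (fun _ _ _ _ => Finset.mem_univ _)
  refine ⟨g + e, b, hb, ?_, ?_, ?_⟩
  · rw [← h1, add_assoc]
  · rw [← h2]
    congr 1
    rw [add_zero]
    abel
  · intro f hf
    rw [← h3 f hf]
    congr 1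
    abel

theorem exps4 (κ : Type) [Finite κ] (J : ℕ) (C : ℕ → κ) :
    ∃ k b : ℕ, 1 ≤ k ∧ 2 ≤ b ∧ C (k * b) = C k ∧ C (k * b ^ b) = C k ∧
      ∀ j : ℕ, 1 ≤ j → j ≤ J → C (k * j ^ b) = C k := by
  classical
  obtain ⟨c₁, hc₁⟩ := limit_colouring κ C
  obtain ⟨c, hc, hur⟩ := exists_ur κ QP c₁
  obtain ⟨x, b, hb2, h0, h1, h2⟩ := pattern_qp κ c hur ((Finset.Icc 1 J).image EE)
  let P : Finset QP := insert x (insert (x + EE b) (insert (x + b • EE b)
    ((Finset.Icc 1 J).image (fun j => x + b • EE j))))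
  obtain ⟨a, ha⟩ := hc P
  obtain ⟨n, hn1, hn⟩ := hc₁ (P.image (fun p => p + a))
  have hmem : ∀ p ∈ P, ∃ k : ℕ, 1 ≤ k ∧ (n : ℚ) * val (p + a) = k ∧ C k = c p := by
    intro p hp
    obtain ⟨k, hk1, hk, hkC⟩ := hn (p + a) (Finset.mem_image.mpr ⟨p, hp, rfl⟩)
    exact ⟨k, hk1, hk, hkC.trans (ha p hp).symm⟩
  obtain ⟨k, hk1, hk, hkC⟩ := hmem x (by simp [P])
  refine ⟨k, b, hk1, hb2, ?_, ?_, ?_⟩
  · obtain ⟨k', _, hk', hkC'⟩ := hmem (x + EE b) (by simp [P])
    have e : k' = k * b := by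
      have e1 : (n : ℚ) * val (x + EE b + a) = ((k * b : ℕ) : ℚ) := by
        rw [val_add, val_add, val_EE _ (by omega)]
        rw [val_add] at hk
        push_cast
        rw [← hk]
        ring
      rw [e1] at hk'
      exact_mod_cast hk'.symm
    rw [← e, hkC', hkC, h0]
  · obtain ⟨k', _, hk', hkC'⟩ := hmem (x + b • EE b) (by simp [P])
    have e : k' = k * b ^ b := by
      have e1 : (n : ℚ) * val (x + b • EE b + a) = ((k * b ^ b : ℕ) : ℚ) := by
        rw [val_add, val_add, val_nsmul, val_EE _ (by omega)]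
        rw [val_add] at hk
        push_cast
        rw [← hk]
        ring
      rw [e1] at hk'
      exact_mod_cast hk'.symm
    rw [← e, hkC', hkC, h1]
  · intro j hj hJ
    have hjm : x + b • EE j ∈ P := Finset.mem_insert_of_mem (Finset.mem_insert_of_mem
      (Finset.mem_insert_of_mem (Finset.mem_image.mpr ⟨j, Finset.mem_Icc.mpr ⟨hj, hJ⟩, rfl⟩)))
    obtain ⟨k', _, hk', hkC'⟩ := hmem (x + b • EE j) hjm
    have h3 := h2 (EE j) (Finset.mem_image.mpr ⟨j, Finset.mem_Icc.mpr ⟨hj, hJ⟩, rfl⟩)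
    have e : k' = k * j ^ b := by
      have e1 : (n : ℚ) * val (x + b • EE j + a) = ((k * j ^ b : ℕ) : ℚ) := by
        rw [val_add, val_add, val_nsmul, val_EE _ (by omega)]
        rw [val_add] at hk
        push_cast
        rw [← hk]
        ring
      rw [e1] at hk'
      exact_mod_cast hk'.symm
    rw [← e, hkC', hkC, h3]

/-- three terms, all finite colourings -/
theorem three_all (κ : Type) [Finite κ] (c : ℕ → κ) (g : ℕ) (J : ℕ) :
    ∃ k b : ℕ, 1 ≤ k ∧ 1 < b ∧ c ((g ^ k) ^ b) = c (g ^ k) ∧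
      c ((g ^ k) ^ (b ^ b)) = c (g ^ k) ∧
      ∀ j : ℕ, 1 ≤ j → j ≤ J → c ((g ^ k) ^ (j ^ b)) = c (g ^ k) := by
  obtain ⟨k, b, hk, hb, h0, h1, h2⟩ := exps4 κ J (fun n => c (g ^ n))
  refine ⟨k, b, hk, hb, ?_, ?_, ?_⟩
  · rw [← pow_mul]
    exact h0
  · rw [← pow_mul]
    exact h1
  · intro j hj hJ
    rw [← pow_mul]
    exact h2 j hj hJ

/-- all four terms for persistent colourings -/
theorem persist4 (κ : Type) [Finite κ] (c : ℕ → κ) (J : ℕ)
    (hp : ∀ i : κ, ∃ M : ℕ, ∀ a : ℕ, 1 < a → ∃ n : ℕ, 1 ≤ n ∧ n ≤ M ∧ c (a ^ n) = i) :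
    ∃ a b : ℕ, 1 < a ∧ 1 < b ∧ c b = c a ∧ c (a ^ b) = c a ∧ c (a ^ (b ^ b)) = c a ∧
      ∀ j : ℕ, 1 ≤ j → j ≤ J → c (a ^ (j ^ b)) = c a := by
  classical
  have := Fintype.ofFinite κ
  choose M hM using hp
  set L : ℕ := ∑ i, M i with hL
  have hML : ∀ i, M i ≤ L := fun i => Finset.single_le_sum (fun _ _ => Nat.zero_le _)
    (Finset.mem_univ i)
  obtain ⟨k, b, hk, hb, h0, h1, h2⟩ := exps4 (Fin (L + 1) → κ) J
    (fun m => fun n : Fin (L + 1) => c (2 ^ (m * (n : ℕ))))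
  have ha : 1 < 2 ^ k := Nat.one_lt_two_pow (by omega)
  obtain ⟨n, hn1, hnM, hn⟩ := hM (c b) (2 ^ k) ha
  have hnL : n < L + 1 := by
    have := hML (c b)
    omega
  rw [← pow_mul] at hn
  refine ⟨2 ^ (k * n), b, Nat.one_lt_two_pow (by
    have := Nat.mul_pos (show 0 < k by omega) (show 0 < n by omega)
    omega), by omega, hn.symm, ?_, ?_, ?_⟩
  · have h3 := congrFun h0 ⟨n, hnL⟩
    simp only at h3
    rw [← pow_mul, ← h3]
    congr 2
    ring
  · have h3 := congrFun h1 ⟨n, hnL⟩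
    simp only at h3
    rw [← pow_mul, ← h3]
    congr 2
    ring
  · intro j hj hJ
    have h3 := congrFun (h2 j hj hJ) ⟨n, hnL⟩
    simp only at h3
    rw [← pow_mul, ← h3]
    congr 2
    ring

/-- all four terms for two colours -/
theorem two4 (c : ℕ → Bool) (J : ℕ) :
    ∃ a b : ℕ, 1 < a ∧ 1 < b ∧ c b = c a ∧ c (a ^ b) = c a ∧ c (a ^ (b ^ b)) = c a ∧
      ∀ j : ℕ, 1 ≤ j → j ≤ J → c (a ^ (j ^ b)) = c a := by
  classical
  by_contra hno
  apply hno
  apply persist4 Bool c J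
  by_contra hp
  push Not at hp
  obtain ⟨i, hi⟩ := hp
  have key : ∀ b : ℕ, 1 < b → c b = i := by
    intro b hb
    by_contra hbi
    obtain ⟨a, ha, hall⟩ := hi (b ^ b + J ^ b + b + 1)
    apply hno
    have hcol : ∀ n : ℕ, 1 ≤ n → n ≤ b ^ b + J ^ b + b + 1 → c (a ^ n) = !i := by
      intro n h1 h2
      have := hall n h1 h2
      cases hc : c (a ^ n) <;> cases i <;> simp_all
    have hca : c a = !i := by
      have := hcol 1 le_rfl (by omega)
      simpa using this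
    have hcb : c b = !i := by
      cases hc : c b <;> cases i <;> simp_all
    refine ⟨a, b, ha, hb, by rw [hca, hcb], ?_, ?_, ?_⟩
    · rw [hca]
      exact hcol _ (by omega) (by omega)
    · rw [hca]
      exact hcol _ (Nat.one_le_pow _ _ (by omega)) (by omega)
    · intro j hj hJ
      rw [hca]
      have : j ^ b ≤ J ^ b := Nat.pow_le_pow_left hJ b
      exact hcol _ (Nat.one_le_pow _ _ (by omega)) (by omega)
  obtain ⟨a, ha, hall⟩ := hi 1
  have := hall 1 le_rfl le_rfl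
  rw [pow_one] at this
  exact this (key a ha)

end Pool.Agent.L5helper91.EB
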