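import Mathlib

set_option autoImplicit false

namespace Pool.Agent.L5helper91.EB

open Filter Topology

variable {K : Type} [AddCommGroup K] [TopologicalSpace K] [IsTopologicalAddGroup K]
  [CompactSpace K] [T2Space K]

theorem add_idem : ∃ p : Ultrafilter ℕ+, ∀ q : ℕ+ → Prop,
    (∀ᶠ n in (p : Filter ℕ+), q n) ↔
      ∀ᶠ m in (p : Filter ℕ+), ∀ᶠ n in (p : Filter ℕ+), q (m + n) := by
  letI := (Ultrafilter.addSemigroup : AddSemigroup (Ultrafilter ℕ+))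
  obtain ⟨p, hp⟩ := exists_idempotent_of_compact_t2_of_continuous_add_left
    (M := Ultrafilter ℕ+) Ultrafilter.continuous_add_left
  refine ⟨p, fun q => ?_⟩
  have h := Ultrafilter.eventually_add p p q
  have hp' : (letI := (Ultrafilter.add : Add (Ultrafilter ℕ+)); p + p) = p := hp
  rw [hp'] at h
  exact h

theorem exists_lim (p : Ultrafilter ℕ+) (f : ℕ+ → K) :
    ∃ L : K, Tendsto f (p : Filter ℕ+) (𝓝 L) := by
  obtain ⟨L, _, hL⟩ := isCompact_univ.ultrafilter_le_nhds (p.map f) (by simp)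
  exact ⟨L, hL⟩

theorem lim_eq (p : Ultrafilter ℕ+) (op : ℕ+ → ℕ+ → ℕ+)
    (hidem : ∀ q : ℕ+ → Prop, (∀ᶠ n in (p : Filter ℕ+), q n) →
      ∀ᶠ m in (p : Filter ℕ+), ∀ᶠ n in (p : Filter ℕ+), q (op m n))
    (f : ℕ+ → K) (L : K) (hf : Tendsto f (p : Filter ℕ+) (𝓝 L)) (G : ℕ+ → K)
    (hG : ∀ m, Tendsto (fun n => f (op m n)) (p : Filter ℕ+) (𝓝 (G m))) (L' : K)
    (hG' : Tendsto G (p : Filter ℕ+) (𝓝 L')) : L' = L := by
  by_contra hne
  have h1 : ({L'}ᶜ : Set K) ∈ 𝓝 L := isOpen_compl_singleton.mem_nhds (by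
    simpa using fun h : L = L' => hne h.symm)
  obtain ⟨W, ⟨hW, hWc⟩, hsub⟩ := (closed_nhds_basis L).mem_iff.mp h1
  have h2 := hidem (fun n => f n ∈ W) (hf hW)
  have h3 : ∀ᶠ m in (p : Filter ℕ+), G m ∈ W := by
    filter_upwards [h2] with m hm
    exact hWc.mem_of_tendsto (hG m) hm
  have h4 : L' ∈ W := hWc.mem_of_tendsto hG' h3
  exact hsub h4 rfl

theorem pow_lim (p : Ultrafilter ℕ+) (hp : ∀ q : ℕ+ → Prop,
    (∀ᶠ n in (p : Filter ℕ+), q n) ↔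
      ∀ᶠ m in (p : Filter ℕ+), ∀ᶠ n in (p : Filter ℕ+), q (m + n)) :
    ∀ y : ℕ, 1 ≤ y → ∀ u : K,
      Tendsto (fun h : ℕ+ => ((h : ℕ) ^ y) • u) (p : Filter ℕ+) (𝓝 0) := by
  intro y
  induction y using Nat.strong_induction_on with
  | _ y ih =>
    intro hy u
    obtain ⟨s, rfl⟩ : ∃ s, y = s + 1 := ⟨y - 1, by omega⟩
    obtain ⟨L, hL⟩ := exists_lim p (fun h : ℕ+ => ((h : ℕ) ^ (s + 1)) • u)
    have hG : ∀ m : ℕ+, Tendsto (fun n : ℕ+ => (((m + n : ℕ+) : ℕ) ^ (s + 1)) • u)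
        (p : Filter ℕ+) (𝓝 (L + ((m : ℕ) ^ (s + 1)) • u)) := by
      intro m
      have e : ∀ n : ℕ+, (((m + n : ℕ+) : ℕ) ^ (s + 1)) • u =
          (∑ j ∈ Finset.range s, ((m : ℕ) ^ (j + 1) * (s + 1).choose (j + 1)) •
            (((n : ℕ) ^ (s - j)) • u)) + ((n : ℕ) ^ (s + 1)) • u + ((m : ℕ) ^ (s + 1)) • u := by
        intro n
        rw [PNat.add_coe, add_pow, Finset.sum_range_succ, Finset.sum_range_succ', add_smul,
          add_smul, Finset.sum_smul]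
        congr 2
        · apply Finset.sum_congr rfl
          intro j hj
          have hj' := Finset.mem_range.mp hj
          rw [smul_smul]
          congr 1
          have : s + 1 - (j + 1) = s - j := by omega
          rw [this]
          simp only [Nat.cast_id]
          ring
        · simp
        · simp
      simp only [e]
      have h0 : Tendsto (fun n : ℕ+ => ∑ j ∈ Finset.range s,
          ((m : ℕ) ^ (j + 1) * (s + 1).choose (j + 1)) • (((n : ℕ) ^ (s - j)) • u))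
          (p : Filter ℕ+) (𝓝 (∑ j ∈ Finset.range s,
            ((m : ℕ) ^ (j + 1) * (s + 1).choose (j + 1)) • (0 : K))) := by
        apply tendsto_finsetSum
        intro j hj
        have hj' := Finset.mem_range.mp hj
        exact (ih (s - j) (by omega) (by omega) u).const_smul _
      simp only [smul_zero, Finset.sum_const_zero] at h0
      have h1 := (h0.add hL).add (tendsto_const_nhds (x := ((m : ℕ) ^ (s + 1)) • u))
      simpa using h1
    have hG' : Tendsto (fun m : ℕ+ => L + ((m : ℕ) ^ (s + 1)) • u) (p : Filter ℕ+)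
        (𝓝 (L + L)) := tendsto_const_nhds.add hL
    have h2 := lim_eq p (fun m n => m + n) (fun q hq => (hp q).mp hq) _ L hL _ hG _ hG'
    have h3 : L = 0 := by simpa using h2
    rw [h3] at hL
    exact hL

/-- a multiplicatively idempotent ultrafilter along which `h ^ y • u → 0` -/
theorem mul_idem : ∃ p : Ultrafilter ℕ+, (∀ q : ℕ+ → Prop,
    (∀ᶠ n in (p : Filter ℕ+), q n) ↔
      ∀ᶠ m in (p : Filter ℕ+), ∀ᶠ n in (p : Filter ℕ+), q (m * n)) ∧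
    ∀ y : ℕ, 1 ≤ y → ∀ u : K,
      Tendsto (fun h : ℕ+ => ((h : ℕ) ^ y) • u) (p : Filter ℕ+) (𝓝 0) := by
  letI := (Ultrafilter.semigroup : Semigroup (Ultrafilter ℕ+))
  let Z : Set (Ultrafilter ℕ+) := {p | ∀ y : ℕ, 1 ≤ y → ∀ u : K,
      Tendsto (fun h : ℕ+ => ((h : ℕ) ^ y) • u) (p : Filter ℕ+) (𝓝 0)}
  have hZne : Z.Nonempty := by
    obtain ⟨p, hp⟩ := add_idem
    exact ⟨p, pow_lim p hp⟩
  have hZc : IsClosed Z := by
    have e : Z = ⋂ (y : ℕ) (_ : 1 ≤ y) (u : K) (U : Set K) (_ : U ∈ 𝓝 (0 : K)),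
        {p : Ultrafilter ℕ+ | (fun h : ℕ+ => ((h : ℕ) ^ y) • u) ⁻¹' U ∈ p} := by
      ext p
      simp only [Z, Set.mem_ofPred_eq, Set.mem_iInter]
      rfl
    rw [e]
    refine isClosed_iInter fun y => isClosed_iInter fun _ => isClosed_iInter fun u =>
      isClosed_iInter fun U => isClosed_iInter fun _ => ?_
    exact ultrafilter_isClosed_basic _
  have hZm : ∀ᵉ (p ∈ Z) (q ∈ Z), p * q ∈ Z := by
    intro p hp q hq y hy u U hU
    have h := (Ultrafilter.eventually_mul p q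
      (fun h : ℕ+ => ((h : ℕ) ^ y) • u ∈ U)).mpr (by
        refine Filter.Eventually.of_forall fun m => ?_
        have h1 : Tendsto (fun n : ℕ+ => ((m : ℕ) ^ y) • (((n : ℕ) ^ y) • u))
            (q : Filter ℕ+) (𝓝 (((m : ℕ) ^ y) • (0 : K))) := (hq y hy u).const_smul _
        rw [smul_zero] at h1
        filter_upwards [h1 hU] with n hn
        have h2 : ((m * n : ℕ+) : ℕ) ^ y = (m : ℕ) ^ y * (n : ℕ) ^ y := by
          rw [PNat.mul_coe, mul_pow]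
        rw [h2, mul_smul]
        exact hn)
    exact h
  obtain ⟨p, hpZ, hp⟩ := exists_idempotent_in_compact_subsemigroup
    (M := Ultrafilter ℕ+) Ultrafilter.continuous_mul_left Z hZne hZc.isCompact hZm
  refine ⟨p, fun q => ?_, hpZ⟩
  have h := Ultrafilter.eventually_mul p p q
  have hp' : (letI := (Ultrafilter.mul : Mul (Ultrafilter ℕ+)); p * p) = p := hp
  rw [hp'] at h
  exact h

theorem bohr_aux (φ : ℕ+ → K) (hφ : ∀ m n, φ (m * n) = φ m + φ n) (U : Set K)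
    (hU : U ∈ 𝓝 (0 : K)) (M : ℕ) (u₀ : K) :
    ∃ h : ℕ+, (h : ℕ) • u₀ ∈ U ∧ ∀ y : ℕ, 1 ≤ y → y ≤ M → y • φ h ∈ U ∧
      ((h : ℕ) ^ y) • (y • φ h) ∈ U := by
  obtain ⟨p, hp, hZ⟩ := mul_idem (K := K)
  -- `φ h → 0`
  have hφ0 : Tendsto φ (p : Filter ℕ+) (𝓝 0) := by
    obtain ⟨L, hL⟩ := exists_lim p φ
    have h2 := lim_eq p (fun m n => m * n) (fun q hq => (hp q).mp hq) φ L hL
      (fun m => φ m + L) (fun m => by
        simp only [hφ]
        exact tendsto_const_nhds.add hL) (L + L) (hL.add tendsto_const_nhds)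
    have h3 : L = 0 := by simpa using h2
    rw [h3] at hL
    exact hL
  have hB : ∀ y : ℕ, 1 ≤ y → Tendsto (fun h : ℕ+ => ((h : ℕ) ^ y) • φ h)
      (p : Filter ℕ+) (𝓝 0) := by
    intro y hy
    obtain ⟨B, hB⟩ := exists_lim p (fun h : ℕ+ => ((h : ℕ) ^ y) • φ h)
    have h2 := lim_eq p (fun m n => m * n) (fun q hq => (hp q).mp hq) _ B hB
      (fun m => ((m : ℕ) ^ y) • B) (fun m => by
        have e : ∀ n : ℕ+, (((m * n : ℕ+) : ℕ) ^ y) • φ (m * n) =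
            ((m : ℕ) ^ y) • (((n : ℕ) ^ y) • φ m) + ((m : ℕ) ^ y) • (((n : ℕ) ^ y) • φ n) := by
          intro n
          rw [hφ, smul_add, PNat.mul_coe, mul_pow, mul_smul, mul_smul]
        simp only [e]
        have h3 := ((hZ y hy (φ m)).const_smul ((m : ℕ) ^ y)).add (hB.const_smul ((m : ℕ) ^ y))
        simpa using h3) 0 (hZ y hy B)
    rw [← h2] at hB
    exact hB
  have hy : ∀ y : ℕ, ∀ᶠ h : ℕ+ in (p : Filter ℕ+), 1 ≤ y → (y • φ h ∈ U ∧
      ((h : ℕ) ^ y) • (y • φ h) ∈ U) := by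
    intro y
    by_cases h1 : 1 ≤ y
    · have h2 := hφ0.const_smul y
      rw [smul_zero] at h2
      have h3 := (hB y h1).const_smul y
      rw [smul_zero] at h3
      filter_upwards [h2 hU, h3 hU] with h h4 h5 _
      refine ⟨h4, ?_⟩
      rw [smul_comm]
      exact h5
    · exact Filter.Eventually.of_forall fun _ h => absurd h h1
  have hu : ∀ᶠ h : ℕ+ in (p : Filter ℕ+), (h : ℕ) • u₀ ∈ U := by
    have h1 := hZ 1 le_rfl u₀
    simp only [pow_one] at h1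
    exact h1 hU
  have hall : ∀ᶠ h : ℕ+ in (p : Filter ℕ+), ∀ y ∈ Finset.range (M + 1), 1 ≤ y → (y • φ h ∈ U ∧
      ((h : ℕ) ^ y) • (y • φ h) ∈ U) :=
    (Filter.eventually_all_finset _).mpr fun y _ => hy y
  obtain ⟨h, h1, h2⟩ := (hu.and hall).exists
  exact ⟨h, h1, fun y hy1 hyM => h2 y (Finset.mem_range.mpr (by omega)) hy1⟩

theorem phi_pow (φ : ℕ → K) (hφ : ∀ m n : ℕ, 1 ≤ m → 1 ≤ n → φ (m * n) = φ m + φ n) (h : ℕ)
    (hh : 1 ≤ h) (y : ℕ) : φ (h ^ y) = y • φ h := by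
  induction y with
  | zero =>
    have h1 := hφ 1 1 le_rfl le_rfl
    rw [mul_one] at h1
    rw [pow_zero, zero_smul]
    simpa using h1
  | succ y ih =>
    rw [pow_succ, hφ _ _ (Nat.one_le_pow _ _ hh) hh, ih, succ_nsmul]

theorem bohr (φ : ℕ → K) (hφ : ∀ m n : ℕ, 1 ≤ m → 1 ≤ n → φ (m * n) = φ m + φ n) (U : Set K)
    (hU : U ∈ 𝓝 (0 : K)) (M : ℕ) :
    ∃ h : ℕ, 1 < h ∧ ∀ y : ℕ, 1 ≤ y → y ≤ M → φ (h ^ y) ∈ U ∧
      φ ((h ^ y) ^ (h ^ y)) ∈ U := by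
  have hconv : ∀ h : ℕ, 1 ≤ h → (∀ y : ℕ, 1 ≤ y → y ≤ M → y • φ h ∈ U ∧
      (h ^ y) • (y • φ h) ∈ U) → ∀ y : ℕ, 1 ≤ y → y ≤ M → φ (h ^ y) ∈ U ∧
      φ ((h ^ y) ^ (h ^ y)) ∈ U := by
    intro h hh hall y hy hyM
    have h1 := phi_pow φ hφ h hh y
    have h2 := phi_pow φ hφ (h ^ y) (Nat.one_le_pow _ _ hh) (h ^ y)
    rw [h2, h1]
    exact hall y hy hyM
  by_cases hK : ∃ u₀ : K, u₀ ≠ 0
  · obtain ⟨u₀, hu₀⟩ := hK
    have hU' : U ∩ {u₀}ᶜ ∈ 𝓝 (0 : K) := Filter.inter_mem hU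
      (isOpen_compl_singleton.mem_nhds (by simpa using hu₀.symm))
    obtain ⟨h, h1, h2⟩ := bohr_aux (fun n : ℕ+ => φ n)
      (fun m n => by rw [PNat.mul_coe]; exact hφ _ _ m.2 n.2) _ hU' M u₀
    refine ⟨h, ?_, hconv h h.2 fun y hy hyM => ⟨(h2 y hy hyM).1.1, (h2 y hy hyM).2.1⟩⟩
    have h3 : (h : ℕ) ≠ 1 := by
      intro h4
      rw [h4, one_smul] at h1
      exact h1.2 rfl
    exact lt_of_le_of_ne h.2 (Ne.symm h3)
  · push Not at hK
    refine ⟨2, by norm_num, fun y _ _ => ?_⟩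
    rw [hK (φ (2 ^ y)), hK (φ ((2 ^ y) ^ (2 ^ y)))]
    exact ⟨mem_of_mem_nhds hU, mem_of_mem_nhds hU⟩

end Pool.Agent.L5helper91.EB
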