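import Mathlib

set_option autoImplicit false

namespace Pool.Agent.L5helper91.EB

open Finset

/-- the largest `y` such that `n` is a `y`-th power (for `n > 1`) -/
def yy (n : ℕ) : ℕ := n.primeFactors.gcd n.factorization

theorem yy_pow (n m : ℕ) (hm : 1 ≤ m) : yy (n ^ m) = yy n * m := by
  unfold yy
  rw [Nat.primeFactors_pow n (by omega), Nat.factorization_pow]
  have h : n.primeFactors.gcd (fun p => m * n.factorization p) =
      m * n.primeFactors.gcd n.factorization := by
    rw [Finset.gcd_mul_left]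
    simp
  rw [mul_comm, ← h]
  rfl

theorem yy_root (n : ℕ) (hn : 1 < n) : 1 ≤ yy n ∧ ∃ h : ℕ, 1 < h ∧ n = h ^ yy n := by
  have hne : n ≠ 0 := by omega
  have hpos : 1 ≤ yy n := by
    by_contra h0
    have h1 : yy n = 0 := by omega
    unfold yy at h1
    rw [Finset.gcd_eq_zero_iff] at h1
    obtain ⟨p, hp, hpn⟩ := Nat.exists_prime_and_dvd (show n ≠ 1 by omega)
    have h2 := h1 p (Nat.mem_primeFactors.mpr ⟨hp, hpn, hne⟩)
    have h3 := (hp.dvd_iff_one_le_factorization hne).mp hpn
    omega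
  refine ⟨hpos, ∏ p ∈ n.primeFactors, p ^ (n.factorization p / yy n), ?_, ?_⟩
  · have h1 : n = (∏ p ∈ n.primeFactors, p ^ (n.factorization p / yy n)) ^ yy n := by
      rw [← Finset.prod_pow]
      conv_lhs => rw [← Nat.prod_factorization_pow_eq_self hne]
      rw [Finsupp.prod]
      apply Finset.prod_congr rfl
      intro p hp
      rw [← pow_mul, Nat.div_mul_cancel]
      exact Finset.gcd_dvd hp
    by_contra hle
    have h2 : ∏ p ∈ n.primeFactors, p ^ (n.factorization p / yy n) ≤ 1 := by omega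
    have h3 : n ≤ 1 ^ yy n := by
      calc n = (∏ p ∈ n.primeFactors, p ^ (n.factorization p / yy n)) ^ yy n := h1
        _ ≤ 1 ^ yy n := Nat.pow_le_pow_left h2 _
    rw [one_pow] at h3
    omega
  · rw [← Finset.prod_pow]
    conv_lhs => rw [← Nat.prod_factorization_pow_eq_self hne]
    rw [Finsupp.prod]
    apply Finset.prod_congr rfl
    intro p hp
    rw [← pow_mul, Nat.div_mul_cancel]
    exact Finset.gcd_dvd hp

/-- a necessary condition for Q1 of `a, b, a ^ (b + 1)` -/
theorem necessary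
    (hQ : ∀ (r : ℕ) (c : ℕ → Fin r), ∃ a b : ℕ, 1 < a ∧ 1 < b ∧ c a = c b ∧ c b = c (a ^ (b + 1)))
    (s : ℕ) (τ : ℕ → Fin s) (Z : ℕ) :
    ∃ k z h : ℕ, Z ≤ k ∧ Z ≤ z ∧ 1 < h ∧ τ z = τ k ∧ τ (k * (h ^ z + 1)) = τ k := by
  classical
  -- the colouring
  let col : ℕ → (Fin Z ⊕ (Unit ⊕ Fin s)) := fun n =>
    if hn : n < Z then Sum.inl ⟨n, hn⟩ else
      if yy n < Z then Sum.inr (Sum.inl ()) else Sum.inr (Sum.inr (τ (yy n)))
  let e := Fintype.equivFin (Fin Z ⊕ (Unit ⊕ Fin s))
  obtain ⟨a, b, ha, hb, h1, h2⟩ := hQ _ (fun n => e (col n))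
  have h1' : col a = col b := e.injective h1
  have h2' : col b = col (a ^ (b + 1)) := e.injective h2
  have hab : a < a ^ (b + 1) := by
    calc a = a ^ 1 := (pow_one a).symm
      _ < a ^ (b + 1) := Nat.pow_lt_pow_right ha (by omega)
  have hbab : b < a ^ (b + 1) := by
    calc b < b + 1 := by omega
      _ < a ^ (b + 1) := Nat.lt_pow_self ha
  obtain ⟨hka, g, hg, hag⟩ := yy_root a ha
  obtain ⟨hzb, h, hh, hbh⟩ := yy_root b hb
  have hyab := yy_pow a (b + 1) (by omega)
  by_cases hbZ : b < Z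
  · exfalso
    -- `b` has its own colour
    have e1 : col b = Sum.inl ⟨b, hbZ⟩ := by simp [col, hbZ]
    rw [e1] at h2'
    by_cases h3 : a ^ (b + 1) < Z
    · have e2 : col (a ^ (b + 1)) = Sum.inl ⟨a ^ (b + 1), h3⟩ := by simp [col, h3]
      rw [e2] at h2'
      have := Fin.mk.inj_iff.mp (Sum.inl.inj h2')
      omega
    · have e2 : ∀ v, col (a ^ (b + 1)) ≠ Sum.inl v := by
        intro v
        simp only [col, h3, dif_neg, not_false_eq_true]
        split_ifs <;> simp
      exact e2 _ h2'.symm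
  · have hZab : ¬ a ^ (b + 1) < Z := by omega
    have hy : ¬ yy (a ^ (b + 1)) < Z := by
      rw [hyab]
      have : 1 * (b + 1) ≤ yy a * (b + 1) := Nat.mul_le_mul_right _ hka
      omega
    have e2 : col (a ^ (b + 1)) = Sum.inr (Sum.inr (τ (yy (a ^ (b + 1))))) := by
      simp [col, hZab, hy]
    rw [e2] at h2'
    have hyb : ¬ yy b < Z := by
      intro h3
      have e3 : col b = Sum.inr (Sum.inl ()) := by simp [col, hbZ, h3]
      rw [e3] at h2'
      simp at h2'
    have e3 : col b = Sum.inr (Sum.inr (τ (yy b))) := by simp [col, hbZ, hyb]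
    rw [h2'] at h1'
    have hZa : ¬ a < Z := by
      intro h3
      have e4 : col a = Sum.inl ⟨a, h3⟩ := by simp [col, h3]
      rw [e4] at h1'
      simp at h1'
    have hya : ¬ yy a < Z := by
      intro h3
      have e4 : col a = Sum.inr (Sum.inl ()) := by simp [col, hZa, h3]
      rw [e4] at h1'
      simp at h1'
    have e4 : col a = Sum.inr (Sum.inr (τ (yy a))) := by simp [col, hZa, hya]
    rw [e4] at h1'
    rw [e3] at h2'
    have t1 := Sum.inr.inj (Sum.inr.inj h1')
    have t2 := Sum.inr.inj (Sum.inr.inj h2')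
    refine ⟨yy a, yy b, h, by omega, by omega, hh, t2.trans t1.symm, ?_⟩
    rw [← hbh, ← hyab]
    exact t1.symm

end Pool.Agent.L5helper91.EB
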