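import Mathlib

set_option autoImplicit false

namespace Pool.Agent.L5helper91.EB

open Finset

/-- Uniform Gallai theorem in an abelian group. -/
theorem gallai (κ : Type) [Finite κ] (A : Type) [AddCommGroup A] (F : Finset A) :
    ∃ (N : ℕ) (Z : Finset A), ∀ χ : A → κ, ∃ z ∈ Z, ∃ K : ℕ, 1 ≤ K ∧ K ≤ N ∧ ∃ c : κ,
      ∀ f ∈ F, χ (z + K • f) = c := by
  classical
  obtain ⟨ι, _inst, hι⟩ := Combinatorics.Line.exists_mono_in_high_dimension F κ
  refine ⟨Fintype.card ι, (Finset.univ : Finset (ι → Option F)).image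
    (fun g => ∑ i, ((g i).map (fun x : F => (x : A))).getD 0), ?_⟩
  intro χ
  obtain ⟨l, c, hl⟩ := hι (fun v => χ (∑ i, (v i : A)))
  refine ⟨∑ i, ((l.idxFun i).map (fun x : F => (x : A))).getD 0, ?_,
    (Finset.univ.filter (fun i => l.idxFun i = none)).card, ?_, ?_, c, ?_⟩
  · exact Finset.mem_image.mpr ⟨l.idxFun, Finset.mem_univ _, rfl⟩
  · obtain ⟨i, hi⟩ := l.proper
    exact Finset.card_pos.mpr ⟨i, by simp [hi]⟩
  · exact Finset.card_le_univ _
  · intro f hf
    rw [← hl ⟨f, hf⟩]
    congr 1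
    rw [← Finset.sum_const, Finset.sum_filter, ← Finset.sum_add_distrib]
    apply Finset.sum_congr rfl
    intro i _
    by_cases hi : l.idxFun i = none
    · rw [l.apply_none _ _ hi]
      simp [hi]
    · obtain ⟨y, hy⟩ := Option.ne_none_iff_exists.mp hi
      rw [l.apply_some hy.symm]
      simp [← hy]

/-- Completely additive function. -/
def CA {A : Type} [AddCommGroup A] (E : ℕ → A) : Prop :=
  ∀ m n : ℕ, m ≠ 0 → n ≠ 0 → E (m * n) = E m + E n

theorem PF (κ : Type) [Finite κ] (r : ℕ) : ∀ (A : Type) [AddCommGroup A] (E : ℕ → A), CA E →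
    ∀ (v : A) (F₀ : Finset A), ∃ (V : Finset A) (T : Finset ℕ), (∀ b ∈ T, 2 ≤ b) ∧
      ∀ (χ : A → κ) (S : Finset κ), S.card ≤ r → (∀ x ∈ V, χ x ∈ S) →
        ∃ x ∈ V, ∃ b ∈ T, χ (x + b • (E b + v)) = χ x ∧ ∀ f ∈ F₀, χ (x + b • f) = χ x := by
  classical
  induction r with
  | zero =>
    intro A _ E _ v F₀
    refine ⟨{0}, ∅, by simp, ?_⟩
    intro χ S hS hV
    have h1 : S = ∅ := Finset.card_eq_zero.mp (Nat.le_zero.mp hS)
    have h2 := hV 0 (by simp)
    rw [h1] at h2
    simp at h2
  | succ r ih =>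
    intro A _ E hE v F₀
    obtain ⟨V', T', hT', hmain⟩ := ih (ℤ × A) (fun k => ((0 : ℤ), E k))
      (by
        intro m n hm hn
        simp [hE m n hm hn])
      ((1 : ℤ), v) (F₀.image (fun f => ((0 : ℤ), f)))
    set M : ℤ := 2 + ∑ h ∈ V', |h.1| with hM
    have hMge : ∀ h ∈ V', (2 : ℤ) ≤ h.1 + M := by
      intro h hh
      have h1 : |h.1| ≤ ∑ h ∈ V', |h.1| :=
        Finset.single_le_sum (f := fun h : ℤ × A => |h.1|) (fun i _ => abs_nonneg _) hh
      have h2 := neg_abs_le h.1
      omega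
    let kk : ℤ × A → ℕ := fun h => (h.1 + M).toNat
    have hkk : ∀ h ∈ V', ((kk h : ℕ) : ℤ) = h.1 + M := by
      intro h hh
      have := hMge h hh
      exact Int.toNat_of_nonneg (by omega)
    have hkk2 : ∀ h ∈ V', 2 ≤ kk h := by
      intro h hh
      have h1 := hMge h hh
      have h2 := hkk h hh
      omega
    let F : Finset A := insert 0 ((V'.image (fun h => h.2 - kk h • (E (kk h) + v))) ∪
      (V' ×ˢ F₀).image (fun p => p.1.2 - kk p.1 • (E (kk p.1) + v) + kk p.1 • p.2))
    obtain ⟨N, Z, hG⟩ := gallai κ A F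
    let V1 : Finset A := (Z ×ˢ (range (N + 1) ×ˢ F)).image (fun p => p.1 + p.2.1 • p.2.2)
    let V2 : Finset A := (Z ×ˢ (range (N + 1) ×ˢ V')).image
      (fun p => p.1 + ((p.2.2.1 + M) • (p.2.1 • E p.2.1) + p.2.1 • p.2.2.2))
    let T1 : Finset ℕ := (range (N + 1) ×ˢ V').image (fun p => kk p.2 * p.1)
    let T2 : Finset ℕ := (range (N + 1) ×ˢ T').image (fun p => p.2 * p.1)
    refine ⟨V1 ∪ V2, (T1 ∪ T2).filter (fun b => 2 ≤ b), ?_, ?_⟩
    · intro b hb
      exact (Finset.mem_filter.mp hb).2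
    · intro χ S hS hV
      obtain ⟨z, hz, K, hK1, hKN, c, hc⟩ := hG χ
      have hKr : K ∈ range (N + 1) := Finset.mem_range.mpr (by omega)
      have hmem1 : ∀ f ∈ F, z + K • f ∈ V1 := by
        intro f hf
        exact Finset.mem_image.mpr ⟨(z, K, f),
          Finset.mem_product.mpr ⟨hz, Finset.mem_product.mpr ⟨hKr, hf⟩⟩, rfl⟩
      have hmem2 : ∀ h ∈ V', z + ((h.1 + M) • (K • E K) + K • h.2) ∈ V2 := by
        intro h hh
        exact Finset.mem_image.mpr ⟨(z, K, h),
          Finset.mem_product.mpr ⟨hz, Finset.mem_product.mpr ⟨hKr, hh⟩⟩, rfl⟩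
      have hF0 : (0 : A) ∈ F := Finset.mem_insert_self _ _
      have hcS : c ∈ S := by
        have h1 := hV _ (Finset.mem_union_left _ (hmem1 0 hF0))
        rwa [hc 0 hF0] at h1
      by_cases hcase : ∃ h ∈ V', χ (z + ((h.1 + M) • (K • E K) + K • h.2)) = c
      · obtain ⟨h, hh, hred⟩ := hcase
        have hf1 : h.2 - kk h • (E (kk h) + v) ∈ F :=
          Finset.mem_insert_of_mem (Finset.mem_union_left _ (Finset.mem_image.mpr ⟨h, hh, rfl⟩))
        have hEb : E (kk h * K) = E (kk h) + E K :=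
          hE _ _ (by have := hkk2 h hh; omega) (by omega)
        refine ⟨z + K • (h.2 - kk h • (E (kk h) + v)), Finset.mem_union_left _ (hmem1 _ hf1),
          kk h * K, ?_, ?_, ?_⟩
        · refine Finset.mem_filter.mpr ⟨Finset.mem_union_left _
            (Finset.mem_image.mpr ⟨(K, h), Finset.mem_product.mpr ⟨hKr, hh⟩, rfl⟩), ?_⟩
          have := hkk2 h hh
          nlinarith
        · rw [hc _ hf1, ← hred]
          congr 1
          rw [hEb, ← hkk h hh, natCast_zsmul]
          simp only [smul_add, smul_sub, smul_smul]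
          rw [mul_comm K (kk h)]
          abel
        · intro f hf
          have hf2 : h.2 - kk h • (E (kk h) + v) + kk h • f ∈ F :=
            Finset.mem_insert_of_mem (Finset.mem_union_right _
              (Finset.mem_image.mpr ⟨(h, f), Finset.mem_product.mpr ⟨hh, hf⟩, rfl⟩))
          rw [hc _ hf1, ← hc _ hf2]
          congr 1
          rw [smul_add K, add_assoc, smul_smul, mul_comm K]
      · push Not at hcase
        obtain ⟨h, hh, b', hb', hx, hfx⟩ := hmain
          (fun h => χ (z + ((h.1 + M) • (K • E K) + K • h.2))) (S.erase c)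
          (by rw [Finset.card_erase_of_mem hcS]; omega)
          (fun h hh => Finset.mem_erase.mpr ⟨hcase h hh,
            hV _ (Finset.mem_union_right _ (hmem2 h hh))⟩)
        have hb'2 := hT' b' hb'
        have hEb : E (b' * K) = E b' + E K := hE _ _ (by omega) (by omega)
        refine ⟨z + ((h.1 + M) • (K • E K) + K • h.2), Finset.mem_union_right _ (hmem2 h hh),
          b' * K, ?_, ?_, ?_⟩
        · refine Finset.mem_filter.mpr ⟨Finset.mem_union_right _
            (Finset.mem_image.mpr ⟨(K, b'), Finset.mem_product.mpr ⟨hKr, hb'⟩, rfl⟩), ?_⟩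
          nlinarith
        · refine Eq.trans ?_ hx
          congr 1
          rw [hEb]
          have e1 : (h + b' • (((0 : ℤ), E b') + ((1 : ℤ), v))).1 = h.1 + b' := by simp
          have e2 : (h + b' • (((0 : ℤ), E b') + ((1 : ℤ), v))).2 = h.2 + b' • (E b' + v) := by
            simp
          rw [e1, e2]
          have e3 : (h.1 + (b' : ℤ) + M) • (K • E K) = (h.1 + M) • (K • E K) + b' • (K • E K) := by
            rw [show h.1 + (b' : ℤ) + M = (h.1 + M) + b' by ring, add_smul, natCast_zsmul]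
          rw [e3]
          simp only [smul_add, smul_smul]
          rw [mul_comm K b']
          abel
        · intro f hf
          have h1 := hfx ((0 : ℤ), f) (Finset.mem_image.mpr ⟨f, hf, rfl⟩)
          refine Eq.trans ?_ h1
          congr 1
          have e1 : (h + b' • (((0 : ℤ), f) : ℤ × A)).1 = h.1 := by simp
          have e2 : (h + b' • (((0 : ℤ), f) : ℤ × A)).2 = h.2 + b' • f := by simp
          rw [e1, e2, smul_add, smul_smul, mul_comm K b']
          abel

end Pool.Agent.L5helper91.EB
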