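import Pool.Agent.L5helper91.EB.Three

set_option autoImplicit false

namespace Pool.Agent.L5helper91.EB

open Finset

lemma bool3 (x y z : Bool) (h1 : x ≠ y) (h2 : y ≠ z) : x = z := by
  cases x <;> cases y <;> cases z <;> simp_all

lemma num2 (a : ℕ → Bool) : ∃ m n : ℕ, 1 ≤ m ∧ 1 ≤ n ∧ m * (n + 1) ≤ 12 ∧
    a (m * n) = a m ∧ a (m * (n + 1)) = a m := by
  by_contra hno
  push Not at hno
  have h12 : a 2 ≠ a 1 := by
    have := hno 1 1 (by norm_num) (by norm_num) (by norm_num)
    norm_num at this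
    exact this
  have h24 : a 4 ≠ a 2 := by
    have := hno 2 1 (by norm_num) (by norm_num) (by norm_num)
    norm_num at this
    exact this
  have h36 : a 6 ≠ a 3 := by
    have := hno 3 1 (by norm_num) (by norm_num) (by norm_num)
    norm_num at this
    exact this
  have h510 : a 10 ≠ a 5 := by
    have := hno 5 1 (by norm_num) (by norm_num) (by norm_num)
    norm_num at this
    exact this
  have h612 : a 12 ≠ a 6 := by
    have := hno 6 1 (by norm_num) (by norm_num) (by norm_num)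
    norm_num at this
    exact this
  have h41 : a 4 = a 1 := bool3 _ _ _ h24 h12
  have h31 : a 3 ≠ a 1 := by
    intro h
    have := hno 1 3 (by norm_num) (by norm_num) (by norm_num)
    norm_num at this
    exact this h h41
  have h51 : a 5 ≠ a 1 := by
    intro h
    have := hno 1 4 (by norm_num) (by norm_num) (by norm_num)
    norm_num at this
    exact this h41 h
  have h101 : a 10 = a 1 := bool3 _ _ _ h510 h51
  have h123 : a 12 = a 3 := bool3 _ _ _ h612 h36
  have h93 : a 9 ≠ a 3 := by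
    intro h
    have := hno 3 3 (by norm_num) (by norm_num) (by norm_num)
    norm_num at this
    exact this h h123
  have h91 : a 9 = a 1 := bool3 _ _ _ h93 h31
  have := hno 1 9 (by norm_num) (by norm_num) (by norm_num)
  norm_num at this
  exact this h91 h101

theorem two3 (A : Type) [AddCommGroup A] (E : ℕ → A) (hE : CA E) (F₀ : Finset A) :
    ∃ V : Finset A, ∀ c : A → Bool, ∃ x ∈ V, ∃ b : ℕ, 2 ≤ b ∧ c (x + E b) = c x ∧
      c (x + b • E b) = c x ∧ ∀ f ∈ F₀, c (x + b • f) = c x := by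
  classical
  let F₀' : Finset A := insert 0 F₀
  let F : Finset A := (range 13 ×ˢ (F₀' ×ˢ F₀')).image (fun p => p.1 • p.2.1 + p.2.2) ∪
    (range 13 ×ˢ F₀').image
      (fun p => p.1 • E p.1 - (p.1 + 1) • E (p.1 + 1) + (p.1 + 1) • p.2)
  obtain ⟨V, B, hP⟩ := P2 (Fin 13 → Bool) A E hE F
  let V1 : Finset A := (V ×ˢ (range 13 ×ˢ (range (B + 1) ×ˢ F))).image
    (fun p => p.1 + E p.2.1 + p.2.2.1 • p.2.2.2)
  let V2 : Finset A := (V ×ˢ (range 13 ×ˢ range (B + 1))).image
    (fun p => p.1 + E p.2.1 + E p.2.2)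
  let V3 : Finset A := (V ×ˢ (range 13 ×ˢ range (B + 1))).image
    (fun p => p.1 + E p.2.1 + p.2.2 • E p.2.2)
  refine ⟨V1 ∪ (V2 ∪ V3), ?_⟩
  intro c
  by_contra hno
  push Not at hno
  obtain ⟨z, hz, K, hK2, hKB, h1, h2, h3, h4⟩ := hP (fun u => fun m : Fin 13 => c (u + E m))
  have hKr : K ∈ range (B + 1) := Finset.mem_range.mpr (by omega)
  have g1 : ∀ m : ℕ, m ≤ 12 → c (z + E m + E K) = c (z + E m) := by
    intro m hm
    have := congrFun h1 ⟨m, by omega⟩
    simp only at this
    rw [← this]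
    congr 1
    abel
  have g2 : ∀ m : ℕ, m ≤ 12 → c (z + E m + E K + E K) = c (z + E m) := by
    intro m hm
    have := congrFun h2 ⟨m, by omega⟩
    simp only at this
    rw [← this]
    congr 1
    abel
  have g3 : ∀ m : ℕ, m ≤ 12 → ∀ f ∈ F, c (z + E m + K • f) = c (z + E m) := by
    intro m hm f hf
    have := congrFun (h3 f hf) ⟨m, by omega⟩
    simp only at this
    rw [← this]
    congr 1
    abel
  have g4 : ∀ m : ℕ, m ≤ 12 → ∀ f ∈ F, c (z + E m + E K + K • f) = c (z + E m) := by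
    intro m hm f hf
    have := congrFun (h4 f hf) ⟨m, by omega⟩
    simp only at this
    rw [← this]
    congr 1
    abel
  obtain ⟨m, n, hm1, hn1, hmn, ha1, ha2⟩ := num2 (fun m => c (z + E m))
  have hm12 : m ≤ 12 := by nlinarith
  have hmn12 : m * n ≤ 12 := by nlinarith
  have hn12 : n < 13 := by nlinarith
  have hEmn : E (m * n) = E m + E n := hE _ _ (by omega) (by omega)
  have hEmn1 : E (m * (n + 1)) = E m + E (n + 1) := hE _ _ (by omega) (by omega)
  have hEnK : E (n * K) = E n + E K := hE _ _ (by omega) (by omega)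
  have hEnK1 : E ((n + 1) * K) = E (n + 1) + E K := hE _ _ (by omega) (by omega)
  have hF0 : (0 : A) ∈ F₀' := Finset.mem_insert_self _ _
  have hFF : ∀ f ∈ F₀, f ∈ F₀' := fun f hf => Finset.mem_insert_of_mem hf
  have f1 : ∀ k : ℕ, k < 13 → ∀ f ∈ F₀', ∀ f' ∈ F₀', k • f + f' ∈ F := by
    intro k hk f hf f' hf'
    exact Finset.mem_union_left _ (Finset.mem_image.mpr ⟨(k, f, f'), Finset.mem_product.mpr
      ⟨Finset.mem_range.mpr hk, Finset.mem_product.mpr ⟨hf, hf'⟩⟩, rfl⟩)
  have f2 : ∀ f ∈ F₀', n • E n - (n + 1) • E (n + 1) + (n + 1) • f ∈ F := by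
    intro f hf
    exact Finset.mem_union_right _ (Finset.mem_image.mpr ⟨(n, f), Finset.mem_product.mpr
      ⟨Finset.mem_range.mpr hn12, hf⟩, rfl⟩)
  have f3 : ∀ f ∈ F₀', f ∈ F := by
    intro f hf
    have := f1 0 (by norm_num) 0 hF0 f hf
    simpa using this
  have f4 : ∀ f ∈ F₀', n • f ∈ F := by
    intro f hf
    have := f1 n hn12 f hf 0 hF0
    simpa using this
  have f5 : n • E n - (n + 1) • E (n + 1) ∈ F := by
    have := f2 0 hF0
    simpa using this
  have mV1 : ∀ l : ℕ, l ≤ 12 → ∀ f ∈ F, z + E l + K • f ∈ V1 ∪ (V2 ∪ V3) := by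
    intro l hl f hf
    exact Finset.mem_union_left _ (Finset.mem_image.mpr ⟨(z, l, K, f), Finset.mem_product.mpr
      ⟨hz, Finset.mem_product.mpr ⟨Finset.mem_range.mpr (show l < 13 by omega),
        Finset.mem_product.mpr ⟨hKr, hf⟩⟩⟩, rfl⟩)
  have mV2 : ∀ l : ℕ, l ≤ 12 → z + E l + E K ∈ V1 ∪ (V2 ∪ V3) := by
    intro l hl
    exact Finset.mem_union_right _ (Finset.mem_union_left _ (Finset.mem_image.mpr ⟨(z, l, K),
      Finset.mem_product.mpr ⟨hz, Finset.mem_product.mpr
        ⟨Finset.mem_range.mpr (show l < 13 by omega), hKr⟩⟩, rfl⟩))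
  have mV3 : ∀ l : ℕ, l ≤ 12 → z + E l + K • E K ∈ V1 ∪ (V2 ∪ V3) := by
    intro l hl
    exact Finset.mem_union_right _ (Finset.mem_union_right _ (Finset.mem_image.mpr ⟨(z, l, K),
      Finset.mem_product.mpr ⟨hz, Finset.mem_product.mpr
        ⟨Finset.mem_range.mpr (show l < 13 by omega), hKr⟩⟩, rfl⟩))
  -- the red tops
  have tA : ∀ f ∈ F₀', c (z + E m + K • (n • f) + K • E K) ≠ c (z + E m) := by
    intro f hf heq
    have e0 := g3 m hm12 _ (f4 f hf)
    obtain ⟨f', hf', hne⟩ := hno _ (mV1 m hm12 _ (f4 f hf)) K hK2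
      (by
        rw [e0, ← g4 m hm12 _ (f4 f hf)]
        congr 1
        abel)
      (by rw [e0, heq])
    apply hne
    rw [e0, ← g3 m hm12 _ (f1 n hn12 f hf f' (hFF f' hf'))]
    congr 1
    rw [smul_add]
    abel
  have tB : c (z + E (m * n) + E K + K • E K) ≠ c (z + E m) := by
    intro heq
    have e0 := g1 (m * n) hmn12
    obtain ⟨f', hf', hne⟩ := hno _ (mV2 (m * n) hmn12) K hK2
      (by rw [e0, g2 (m * n) hmn12])
      (by rw [e0, heq, ha1])
    apply hne
    rw [e0, g4 (m * n) hmn12 _ (f3 f' (hFF f' hf'))]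
  have tC : c (z + E m + K • (n • E n - (n + 1) • E (n + 1)) + ((n + 1) * K) • E ((n + 1) * K))
      ≠ c (z + E m) := by
    intro heq
    have e0 := g3 m hm12 _ f5
    obtain ⟨f', hf', hne⟩ := hno _ (mV1 m hm12 _ f5) ((n + 1) * K) (by nlinarith)
      (by
        rw [e0, ← ha2, ← g4 (m * (n + 1)) hmn _ f5]
        congr 1
        rw [hEnK1, hEmn1]
        abel)
      (by rw [e0, heq])
    apply hne
    rw [e0, ← g3 m hm12 _ (f2 f' (hFF f' hf'))]
    congr 1
    rw [smul_add K, smul_smul, mul_comm K (n + 1)]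
    abel
  -- the blue pattern
  have hx : c (z + E m + K • E K) ≠ c (z + E m) := by
    have := tA 0 hF0
    simpa using this
  obtain ⟨f', hf', hne⟩ := hno _ (mV3 m hm12) (n * K) (by nlinarith)
    (by
      have e : z + E m + K • E K + E (n * K) = z + E (m * n) + E K + K • E K := by
        rw [hEnK, hEmn]
        abel
      rw [e]
      exact bool3 _ _ _ tB hx.symm)
    (by
      have e : z + E m + K • E K + (n * K) • E (n * K) = z + E m +
          K • (n • E n - (n + 1) • E (n + 1)) + ((n + 1) * K) • E ((n + 1) * K) := by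
        rw [hEnK, hEnK1]
        simp only [smul_add, smul_sub, smul_smul]
        rw [mul_comm K n, mul_comm K (n + 1), add_mul n 1 K, one_mul, add_smul (n * K) K (E K)]
        abel
      rw [e]
      exact bool3 _ _ _ tC hx.symm)
  apply hne
  have e : z + E m + K • E K + (n * K) • f' = z + E m + K • (n • f') + K • E K := by
    rw [smul_smul, mul_comm K n]
    abel
  rw [e]
  exact bool3 _ _ _ (tA f' (hFF f' hf')) hx.symm

end Pool.Agent.L5helper91.EB
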