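import Pool.Agent.L5helper91.EB.Transfer
import Pool.Agent.L5helper91.EB.TwoCol

set_option autoImplicit false

namespace Pool.Agent.L5helper91.EB

open Finset

lemma denom (V : Finset QP) : ∃ D : ℕ, 0 < D ∧ ∀ q ∈ V, ∃ k : ℕ, 1 ≤ k ∧ (D : ℚ) * val q = k := by
  classical
  refine ⟨∏ q ∈ V, (val q).den, Finset.prod_pos (fun q _ => (val q).den_pos), ?_⟩
  intro q hq
  obtain ⟨e, he⟩ : (val q).den ∣ ∏ q ∈ V, (val q).den := Finset.dvd_prod_of_mem _ hq
  have hDpos : 0 < ∏ q ∈ V, (val q).den := Finset.prod_pos (fun q _ => (val q).den_pos)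
  have hnum : 0 < (val q).num := Rat.num_pos.mpr (val_pos q)
  refine ⟨e * (val q).num.toNat, ?_, ?_⟩
  · have he0 : 0 < e := by
      rcases Nat.eq_zero_or_pos e with h | h
      · rw [h] at he
        omega
      · exact h
    have h2 : 0 < (val q).num.toNat := by omega
    exact Nat.mul_pos he0 h2
  · rw [he]
    push_cast
    have h1 : ((val q).num.toNat : ℚ) = (val q).num := by
      exact_mod_cast (Int.toNat_of_nonneg hnum.le)
    rw [h1]
    have h2 := Rat.den_mul_eq_num (val q)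
    calc ((val q).den : ℚ) * (e : ℚ) * val q = e * ((val q).den * val q) := by ring
      _ = e * (val q).num := by rw [h2]

theorem exps3 (J : ℕ) (C : ℕ → Bool) :
    ∃ k b : ℕ, 1 ≤ k ∧ 2 ≤ b ∧ C (k * b) = C k ∧ C (k * b ^ b) = C k ∧
      ∀ j : ℕ, 1 ≤ j → j ≤ J → C (k * j ^ b) = C k := by
  classical
  obtain ⟨V, hV⟩ := two3 QP EE EE_CA ((Finset.Icc 1 J).image EE)
  obtain ⟨D, hDpos, hint⟩ := denom V
  obtain ⟨x, hx, b, hb2, h0, h1, h2⟩ := hV (fun q => C ⌊(D : ℚ) * val q⌋₊)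
  obtain ⟨k, hk1, hk⟩ := hint x hx
  refine ⟨k, b, hk1, hb2, ?_, ?_, ?_⟩
  · have e1 : (D : ℚ) * val (x + EE b) = ((k * b : ℕ) : ℚ) := by
      rw [val_add, val_EE _ (by omega), ← mul_assoc, hk]
      push_cast
      ring
    simp only [e1, hk, Nat.floor_natCast] at h0
    exact h0
  · have e1 : (D : ℚ) * val (x + b • EE b) = ((k * b ^ b : ℕ) : ℚ) := by
      rw [val_add, val_nsmul, val_EE _ (by omega), ← mul_assoc, hk]
      push_cast
      ring
    simp only [e1, hk, Nat.floor_natCast] at h1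
    exact h1
  · intro j hj1 hjJ
    have h3 := h2 (EE j) (Finset.mem_image.mpr ⟨j, Finset.mem_Icc.mpr ⟨hj1, hjJ⟩, rfl⟩)
    have e1 : (D : ℚ) * val (x + b • (EE j)) = ((k * j ^ b : ℕ) : ℚ) := by
      rw [val_add, val_nsmul, val_EE _ (by omega), ← mul_assoc, hk]
      push_cast
      ring
    simp only [e1, hk, Nat.floor_natCast] at h3
    exact h3

theorem three (c : ℕ → Bool) (g : ℕ) (J : ℕ) :
    ∃ k b : ℕ, 1 ≤ k ∧ 1 < b ∧ c ((g ^ k) ^ b) = c (g ^ k) ∧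
      c ((g ^ k) ^ (b ^ b)) = c (g ^ k) ∧
      ∀ j : ℕ, 1 ≤ j → j ≤ J → c ((g ^ k) ^ (j ^ b)) = c (g ^ k) := by
  obtain ⟨k, b, hk, hb, h0, h1, h2⟩ := exps3 J (fun n => c (g ^ n))
  refine ⟨k, b, hk, hb, ?_, ?_, ?_⟩
  · rw [← pow_mul]
    exact h0
  · rw [← pow_mul]
    exact h1
  · intro j hj hJ
    rw [← pow_mul]
    exact h2 j hj hJ

end Pool.Agent.L5helper91.EB
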