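import Pool.Agent.L5helper91.EB.Star2
import Pool.Agent.L5helper91.EB.Transfer2

set_option autoImplicit false

namespace Pool.Agent.L5helper91.EB

open Finset

/-- a uniformly recurrent colouring in the orbit closure -/
theorem exists_ur (κ : Type) [Finite κ] (A : Type) [AddCommGroup A] (c₀ : A → κ) :
    ∃ c : A → κ, (∀ P : Finset A, ∃ a : A, ∀ p ∈ P, c p = c₀ (p + a)) ∧
      (∀ W : Finset A, ∃ L : Finset A, ∀ x Q : A, ∃ a ∈ L, ∀ w ∈ W,
        c (w + a + Q) = c (w + x)) := by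
  classical
  letI : TopologicalSpace κ := ⊥
  haveI : DiscreteTopology κ := ⟨rfl⟩
  haveI : CompactSpace κ := Finite.compactSpace
  have := Fintype.ofFinite κ
  let sh : A → (A → κ) → (A → κ) := fun a c x => c (x + a)
  have hsh : ∀ a, Continuous (sh a) := fun a =>
    continuous_pi (fun x => continuous_apply (x + a))
  have hshsh : ∀ a b c, sh a (sh b c) = sh (a + b) c := by
    intro a b c
    funext x
    show c (x + a + b) = c (x + (a + b))
    rw [add_assoc]
  have hopen : ∀ (W : Finset A) (f g : A → A) (d : A → κ),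
      IsOpen {c' : A → κ | ∀ w ∈ W, c' (f w) = d (g w)} := by
    intro W f g d
    have : {c' : A → κ | ∀ w ∈ W, c' (f w) = d (g w)} =
        ⋂ w ∈ W, (fun c' : A → κ => c' (f w)) ⁻¹' {d (g w)} := by
      ext c'
      simp
    rw [this]
    exact isOpen_biInter_finset (fun w _ => (isOpen_discrete _).preimage (continuous_apply _))
  let O : Set (A → κ) := closure (Set.range (fun a => sh a c₀))
  let S : Set (Set (A → κ)) := {N | IsClosed N ∧ N.Nonempty ∧ ∀ a, ∀ c ∈ N, sh a c ∈ N}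
  have hO : O ∈ S := by
    refine ⟨isClosed_closure, ⟨sh 0 c₀, subset_closure ⟨0, rfl⟩⟩, ?_⟩
    intro a c hc
    refine map_mem_closure (hsh a) hc ?_
    rintro _ ⟨b, rfl⟩
    exact ⟨a + b, (hshsh a b c₀).symm⟩
  obtain ⟨M, hMO, hMmin⟩ := zorn_superset_nonempty S (by
    intro ch hcs hc hne
    refine ⟨⋂₀ ch, ⟨isClosed_sInter fun t ht => (hcs ht).1, ?_, ?_⟩, fun s hs =>
      Set.sInter_subset_of_mem hs⟩
    · haveI := hne.coe_sort
      rw [Set.sInter_eq_iInter]
      exact IsCompact.nonempty_iInter_of_directed_nonempty_isCompact_isClosed _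
        (DirectedOn.directed_val (IsChain.directedOn hc.symm))
        (fun i => (hcs i.prop).2.1) (fun i => (hcs i.prop).1.isCompact)
        (fun i => (hcs i.prop).1)
    · intro a c hc' t ht
      exact (hcs ht).2.2 a c (hc' t ht)) O hO
  obtain ⟨hMclosed, ⟨c, hcM⟩, hMinv⟩ := hMmin.prop
  have key : ∀ W : Finset A, ∀ d ∈ M, ∃ L : Finset A, ∀ c' ∈ M, ∃ a ∈ L, ∀ w ∈ W,
      c' (w + a) = d w := by
    intro W d hd
    have h1 : ∀ c' ∈ M, ∃ a : A, ∀ w ∈ W, c' (w + a) = d w := by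
      by_contra hno
      push Not at hno
      obtain ⟨c₁, hc₁, hc₁'⟩ := hno
      let N : Set (A → κ) := M ∩ ⋂ a : A, {c' : A → κ | ∀ w ∈ W, c' (w + a) = d (id w)}ᶜ
      have hN : N ∈ S := by
        refine ⟨hMclosed.inter (isClosed_iInter (fun a =>
          (hopen W (fun w => w + a) id d).isClosed_compl)), ⟨c₁, hc₁, ?_⟩, ?_⟩
        · rw [Set.mem_iInter]
          intro a ha
          obtain ⟨w, hw, hne⟩ := hc₁' a
          exact hne (ha w hw)
        · rintro b c' ⟨hc'M, hc'⟩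
          refine ⟨hMinv b c' hc'M, ?_⟩
          rw [Set.mem_iInter] at hc' ⊢
          intro a ha
          apply hc' (a + b)
          intro w hw
          have := ha w hw
          rw [← this]
          show c' (w + (a + b)) = c' (w + a + b)
          rw [add_assoc]
      have hle : M ⊆ N := hMmin.le_of_le hN (Set.inter_subset_left)
      have h2 := (hle hd).2
      rw [Set.mem_iInter] at h2
      apply h2 0
      intro w hw
      simp
    have h2 : M ⊆ ⋃ a : A, {c' : A → κ | ∀ w ∈ W, c' (w + a) = d (id w)} := by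
      intro c' hc'
      obtain ⟨a, ha⟩ := h1 c' hc'
      exact Set.mem_iUnion.mpr ⟨a, ha⟩
    obtain ⟨t, ht⟩ := hMclosed.isCompact.elim_finite_subcover _
      (fun a => hopen W (fun w => w + a) id d) h2
    refine ⟨t, ?_⟩
    intro c' hc'
    have h3 := ht hc'
    simp only [Set.mem_iUnion] at h3
    obtain ⟨a, hat, ha⟩ := h3
    exact ⟨a, hat, ha⟩
  refine ⟨c, ?_, ?_⟩
  · intro P
    have h1 := hMO hcM
    rw [mem_closure_iff] at h1
    obtain ⟨d, hd, ⟨a, rfl⟩⟩ := h1 _ (hopen P id id c) (fun w _ => rfl)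
    exact ⟨a, fun p hp => (hd p hp).symm⟩
  · intro W
    have h1 : ∀ b : W → κ, ∃ L : Finset A, ∀ d ∈ M, (∀ w : W, d w = b w) → ∀ c' ∈ M,
        ∃ a ∈ L, ∀ w ∈ W, c' (w + a) = d w := by
      intro b
      by_cases hb : ∃ d ∈ M, ∀ w : W, d w = b w
      · obtain ⟨d, hd, hdb⟩ := hb
        obtain ⟨L, hL⟩ := key W d hd
        refine ⟨L, ?_⟩
        intro d' _ hd'b c' hc'
        obtain ⟨a, ha, hw⟩ := hL c' hc'
        refine ⟨a, ha, ?_⟩
        intro w hwW
        rw [hw w hwW, hdb ⟨w, hwW⟩, hd'b ⟨w, hwW⟩]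
      · exact ⟨∅, fun d hd hdb => (hb ⟨d, hd, hdb⟩).elim⟩
    choose Lf hLf using h1
    refine ⟨Finset.univ.biUnion Lf, ?_⟩
    intro x Q
    obtain ⟨a, ha, hw⟩ := hLf (fun w : W => c (w + x)) (sh x c) (hMinv x c hcM) (fun w => rfl)
      (sh Q c) (hMinv Q c hcM)
    exact ⟨a, Finset.mem_biUnion.mpr ⟨_, Finset.mem_univ _, ha⟩, hw⟩

/-- a limit colouring of the positive rationals -/
theorem limit_colouring (κ : Type) [Finite κ] (C : ℕ → κ) : ∃ c₁ : QP → κ, ∀ P : Finset QP,
    ∃ n : ℕ, 1 ≤ n ∧ ∀ p ∈ P, ∃ k : ℕ, 1 ≤ k ∧ (n : ℚ) * val p = k ∧ C k = c₁ p := by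
  classical
  letI : TopologicalSpace κ := ⊥
  haveI : DiscreteTopology κ := ⟨rfl⟩
  haveI : CompactSpace κ := Finite.compactSpace
  let f : ℕ → (QP → κ) := fun n q => C ⌊((n.factorial : ℕ) : ℚ) * val q⌋₊
  obtain ⟨c₁, hc₁⟩ := exists_clusterPt_of_compactSpace (Filter.map f Filter.atTop)
  refine ⟨c₁, ?_⟩
  intro P
  have hU : {c' : QP → κ | ∀ p ∈ P, c' p = c₁ p} ∈ nhds c₁ := by
    apply IsOpen.mem_nhds
    · have : {c' : QP → κ | ∀ w ∈ P, c' w = c₁ w} =
          ⋂ w ∈ P, (fun c' : QP → κ => c' w) ⁻¹' {c₁ w} := by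
        ext c'
        simp
      rw [this]
      exact isOpen_biInter_finset (fun w _ => (isOpen_discrete _).preimage (continuous_apply _))
    · intro p _
      rfl
  have h1 : ∃ᶠ n in Filter.atTop, f n ∈ {c' : QP → κ | ∀ p ∈ P, c' p = c₁ p} :=
    (mapClusterPt_iff_frequently.mp hc₁) _ hU
  have h2 : ∀ᶠ n in Filter.atTop, ∑ p ∈ P, (val p).den ≤ n := Filter.eventually_ge_atTop _
  obtain ⟨n, hn1, hn2⟩ := (h1.and_eventually h2).exists
  refine ⟨n.factorial, n.factorial_pos, ?_⟩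
  intro p hp
  have hden : (val p).den ≤ n := le_trans
    (Finset.single_le_sum (f := fun p : QP => (val p).den) (fun _ _ => Nat.zero_le _) hp) hn2
  obtain ⟨e, he⟩ : (val p).den ∣ n.factorial := Nat.dvd_factorial (val p).den_pos hden
  have hnum : 0 < (val p).num := Rat.num_pos.mpr (val_pos p)
  have he0 : 0 < e := by
    rcases Nat.eq_zero_or_pos e with h | h
    · rw [h] at he
      have := n.factorial_pos
      omega
    · exact h
  have hk : ((n.factorial : ℕ) : ℚ) * val p = ((e * (val p).num.toNat : ℕ) : ℚ) := by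
    rw [he]
    push_cast
    have h1 : ((val p).num.toNat : ℚ) = (val p).num := by
      exact_mod_cast (Int.toNat_of_nonneg hnum.le)
    rw [h1]
    have h2 := Rat.den_mul_eq_num (val p)
    calc ((val p).den : ℚ) * (e : ℚ) * val p = e * ((val p).den * val p) := by ring
      _ = e * (val p).num := by rw [h2]
  refine ⟨e * (val p).num.toNat, Nat.mul_pos he0 (by omega), hk, ?_⟩
  have h3 := hn1 p hp
  rw [← h3]
  show C _ = C ⌊((n.factorial : ℕ) : ℚ) * val p⌋₊
  rw [hk, Nat.floor_natCast]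

end Pool.Agent.L5helper91.EB
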