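import Pool.Agent.L5helper91.EB.Thick
import Pool.Agent.L5helper91.EB.Expo

set_option autoImplicit false

namespace Pool.Agent.L5helper91.EB

open Finset

/-- a minimal set of colours inside `U` -/
theorem exists_minU (κ : Type) [Finite κ] [DecidableEq κ] (c : ℕ → κ) (P : Set ℕ) (U : Finset κ)
    (hU : ∀ M : ℕ, ∃ a ∈ P, ∀ n : ℕ, 1 ≤ n → n ≤ M → c (a ^ n) ∈ U) :
    ∃ S : Finset κ, S ⊆ U ∧ (∀ M : ℕ, ∃ a ∈ P, ∀ n : ℕ, 1 ≤ n → n ≤ M → c (a ^ n) ∈ S) ∧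
      ∃ M : ℕ, ∀ a ∈ P, (∀ n : ℕ, 1 ≤ n → n ≤ M → c (a ^ n) ∈ S) →
        ∀ i ∈ S, ∃ n : ℕ, 1 ≤ n ∧ n ≤ M ∧ c (a ^ n) = i := by
  classical
  have := Fintype.ofFinite κ
  have hex : ∃ s : ℕ, ∃ S : Finset κ, S.card = s ∧ S ⊆ U ∧
      (∀ M : ℕ, ∃ a ∈ P, ∀ n : ℕ, 1 ≤ n → n ≤ M → c (a ^ n) ∈ S) :=
    ⟨_, U, rfl, Finset.Subset.refl _, hU⟩
  obtain ⟨S, hcard, hSU, hS⟩ := Nat.find_spec hex
  refine ⟨S, hSU, hS, ?_⟩
  by_contra hno
  push Not at hno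
  choose G hGP hG i hiS hi using hno
  have hpig : ∃ i₀ ∈ S, ∀ M₀ : ℕ, ∃ M : ℕ, M₀ ≤ M ∧ i M = i₀ := by
    by_contra hp
    push Not at hp
    choose! B hB using hp
    have h1 := hB (i (∑ j ∈ S, B j)) (hiS _) (∑ j ∈ S, B j)
      (Finset.single_le_sum (f := B) (fun _ _ => Nat.zero_le _) (hiS _))
    exact h1 rfl
  obtain ⟨i₀, hi₀, hinf⟩ := hpig
  have hlt : (S.erase i₀).card < Nat.find hex := by
    rw [← hcard]
    exact Finset.card_erase_lt_of_mem hi₀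
  apply Nat.find_min hex hlt
  refine ⟨S.erase i₀, rfl, (Finset.erase_subset _ _).trans hSU, ?_⟩
  intro M₀
  obtain ⟨M, hM, hMi⟩ := hinf M₀
  refine ⟨G M, hGP M, fun n hn1 hn => ?_⟩
  refine Finset.mem_erase.mpr ⟨?_, hG M n hn1 (by omega)⟩
  rw [← hMi]
  exact hi M n hn1 (by omega)

/-- if the pattern is avoided, the colours of a minimal set are avoided by returns -/
theorem anchored (κ : Type) [Finite κ] [DecidableEq κ] (c : ℕ → κ)
    (hfail : ¬ ∃ a b : ℕ, 1 < a ∧ 1 < b ∧ c b = c a ∧ c (a ^ b) = c a ∧ c (a ^ (b ^ b)) = c a)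
    (S : Finset κ)
    (h1 : ∀ M : ℕ, ∃ a ∈ {a : ℕ | 1 < a}, ∀ n : ℕ, 1 ≤ n → n ≤ M → c (a ^ n) ∈ S)
    (h2 : ∃ M : ℕ, ∀ a ∈ {a : ℕ | 1 < a}, (∀ n : ℕ, 1 ≤ n → n ≤ M → c (a ^ n) ∈ S) →
      ∀ i ∈ S, ∃ n : ℕ, 1 ≤ n ∧ n ≤ M ∧ c (a ^ n) = i) :
    ∃ (m : ℕ) (τ : ℕ → Fin m), ∀ b : ℕ, 1 < b →
      (∃ x : ℕ, 1 ≤ x ∧ τ (x * b) = τ x ∧ τ (x * b ^ b) = τ x) → c b ∉ S := by
  classical
  have := Fintype.ofFinite κ
  obtain ⟨M, hM⟩ := h2
  choose G hGP hG using h1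
  obtain ⟨C₀, hC₀⟩ := seq_limit (Fin (M + 1) → κ)
    (fun N m => fun n : Fin (M + 1) => c (G N ^ (m * (n : ℕ))))
  refine ⟨_, fun n => Fintype.equivFin (Fin (M + 1) → κ) (C₀ n), ?_⟩
  rintro b hb ⟨k, hk, h0, h1⟩ hcb
  have e0 : C₀ (k * b) = C₀ k := (Fintype.equivFin _).injective h0
  have e1 : C₀ (k * b ^ b) = C₀ k := (Fintype.equivFin _).injective h1
  apply hfail
  obtain ⟨N, hN, hNC⟩ := hC₀ (insert k (insert (k * b) {k * b ^ b})) (k * M)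
  have m0 := hNC k (by simp)
  have m1 := hNC (k * b) (by simp)
  have m2 := hNC (k * b ^ b) (by simp)
  have hG1 : 1 < G N := hGP N
  have hpP : 1 < G N ^ k := Nat.one_lt_pow (by omega) hG1
  obtain ⟨n, hn1, hnM, hn⟩ := hM (G N ^ k) hpP (by
    intro n hn1 hnM
    rw [← pow_mul]
    exact hG N (k * n) (Nat.mul_pos hk hn1) (le_trans (Nat.mul_le_mul_left k hnM) hN)) (c b) hcb
  have hnL : n < M + 1 := by omega
  refine ⟨(G N ^ k) ^ n, b, Nat.one_lt_pow (by omega) hpP, hb, hn.symm, ?_, ?_⟩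
  · have h3 := congrFun (m1.trans (e0.trans m0.symm)) ⟨n, hnL⟩
    simp only at h3
    rw [← pow_mul (G N) k n, ← pow_mul, ← h3]
    congr 2
    ring
  · have h3 := congrFun (m2.trans (e1.trans m0.symm)) ⟨n, hnL⟩
    simp only at h3
    rw [← pow_mul (G N) k n, ← pow_mul, ← h3]
    congr 2
    ring

/-- the structure of a colouring avoiding the pattern, with bounded powers -/
theorem structFail (κ : Type) [Finite κ] [DecidableEq κ] (c : ℕ → κ)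
    (hfail : ¬ ∃ a b : ℕ, 1 < a ∧ 1 < b ∧ c b = c a ∧ c (a ^ b) = c a ∧ c (a ^ (b ^ b)) = c a) :
    ∃ (T : Finset κ) (m : ℕ) (τ : ℕ → Fin m) (M : ℕ),
      (∀ h : ℕ, 1 < h → ∃ y : ℕ, 1 ≤ y ∧ y ≤ M ∧ c (h ^ y) ∈ T) ∧
      ∀ b : ℕ, 1 < b → c b ∈ T → ¬ ∃ x : ℕ, 1 ≤ x ∧ τ (x * b) = τ x ∧ τ (x * b ^ b) = τ x := by
  classical
  have := Fintype.ofFinite κ
  let A : Finset κ → Prop := fun T => ∃ (m : ℕ) (τ : ℕ → Fin m), ∀ b : ℕ, 1 < b → c b ∈ T →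
    ¬ ∃ x : ℕ, 1 ≤ x ∧ τ (x * b) = τ x ∧ τ (x * b ^ b) = τ x
  have hne : (Finset.univ.filter A).Nonempty := by
    refine ⟨∅, Finset.mem_filter.mpr ⟨Finset.mem_univ _, 1, fun _ => 0, ?_⟩⟩
    intro b _ hb
    simp at hb
  obtain ⟨T, hT, hmax⟩ := Finset.exists_max_image (Finset.univ.filter A) Finset.card hne
  obtain ⟨m, τ, hτ⟩ := (Finset.mem_filter.mp hT).2
  by_contra hno
  have hlong : ∀ M : ℕ, ∃ a ∈ {a : ℕ | 1 < a}, ∀ n : ℕ, 1 ≤ n → n ≤ M → c (a ^ n) ∈ Tᶜ := by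
    intro M
    by_contra h
    apply hno
    refine ⟨T, m, τ, M, ?_, hτ⟩
    intro g hg
    by_contra hg2
    push Not at hg2
    exact h ⟨g, hg, fun n h1 h2 => Finset.mem_compl.mpr (hg2 n h1 h2)⟩
  obtain ⟨S, hSU, hS1, hS2⟩ := exists_minU κ c {a : ℕ | 1 < a} Tᶜ hlong
  obtain ⟨m', τ', hτ'⟩ := anchored κ c hfail S hS1 hS2
  have hAS : A (T ∪ S) := by
    refine ⟨_, fun n => Fintype.equivFin (Fin m × Fin m') (τ n, τ' n), ?_⟩
    rintro b hb hcb ⟨x, hx, e0, e1⟩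
    have f0 := (Fintype.equivFin (Fin m × Fin m')).injective e0
    have f1 := (Fintype.equivFin (Fin m × Fin m')).injective e1
    have g0 := (Prod.mk.injEq _ _ _ _).mp f0
    have g1 := (Prod.mk.injEq _ _ _ _).mp f1
    rcases Finset.mem_union.mp hcb with h | h
    · exact hτ b hb h ⟨x, hx, g0.1, g1.1⟩
    · exact hτ' b hb ⟨x, hx, g0.2, g1.2⟩ h
  have hle := hmax (T ∪ S) (Finset.mem_filter.mpr ⟨Finset.mem_univ _, hAS⟩)
  obtain ⟨a, _, ha⟩ := hS1 1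
  have h1 := ha 1 le_rfl le_rfl
  have h2 : c (a ^ 1) ∉ T := Finset.mem_compl.mp (hSU h1)
  have h3 : T.card < (T ∪ S).card := by
    apply Finset.card_lt_card
    refine ⟨Finset.subset_union_left, fun hsub => h2 (hsub (Finset.mem_union_right _ h1))⟩
  omega

/-- a necessary condition for Q1 -/
theorem necessary2
    (hQ : ∀ (r : ℕ) (c : ℕ → Fin r), ∃ a b : ℕ, 1 < a ∧ 1 < b ∧ c b = c a ∧ c (a ^ b) = c a ∧
      c (a ^ (b ^ b)) = c a)
    (s : ℕ) (τ : ℕ → Fin s) (Z : ℕ) :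
    ∃ k z h : ℕ, Z ≤ k ∧ Z ≤ z ∧ 1 < h ∧ τ z = τ k ∧ τ (k * h ^ z) = τ k ∧
      τ (k * h ^ (z * h ^ z)) = τ k := by
  classical
  let col : ℕ → (Fin Z ⊕ (Unit ⊕ Fin s)) := fun n =>
    if hn : n < Z then Sum.inl ⟨n, hn⟩ else
      if yy n < Z then Sum.inr (Sum.inl ()) else Sum.inr (Sum.inr (τ (yy n)))
  let e := Fintype.equivFin (Fin Z ⊕ (Unit ⊕ Fin s))
  obtain ⟨a, b, ha, hb, h0, h1, h2⟩ := hQ _ (fun n => e (col n))
  have h0' : col b = col a := e.injective h0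
  have h1' : col (a ^ b) = col a := e.injective h1
  have h2' : col (a ^ (b ^ b)) = col a := e.injective h2
  have hab : b < a ^ b := Nat.lt_pow_self ha
  have hbb : b ≤ b ^ b := Nat.le_self_pow (by omega) b
  have habb : a ^ b ≤ a ^ (b ^ b) := Nat.pow_le_pow_right (by omega) hbb
  obtain ⟨hka, g, hg, hag⟩ := yy_root a ha
  obtain ⟨hzb, h, hh, hbh⟩ := yy_root b hb
  have hy1 := yy_pow a b (by omega)
  have hy2 := yy_pow a (b ^ b) (by omega)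
  by_cases hbZ : b < Z
  · exfalso
    have e1 : col b = Sum.inl ⟨b, hbZ⟩ := by simp [col, hbZ]
    rw [← h1', e1] at h0'
    by_cases h3 : a ^ b < Z
    · have e2 : col (a ^ b) = Sum.inl ⟨a ^ b, h3⟩ := by simp [col, h3]
      rw [e2] at h0'
      have := Fin.mk.inj_iff.mp (Sum.inl.inj h0')
      omega
    · have e2 : ∀ v, col (a ^ b) ≠ Sum.inl v := by
        intro v
        simp only [col, h3, dif_neg, not_false_eq_true]
        split_ifs <;> simp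
      exact e2 _ h0'.symm
  · have key : ∀ n : ℕ, ¬ n < Z → ¬ yy n < Z → col n = Sum.inr (Sum.inr (τ (yy n))) := by
      intro n h3 h4
      simp [col, h3, h4]
    have back : ∀ (n : ℕ) (v : Fin s), col n = Sum.inr (Sum.inr v) → ¬ yy n < Z ∧ τ (yy n) = v := by
      intro n v hn
      by_cases h3 : n < Z
      · have e4 : col n = Sum.inl ⟨n, h3⟩ := by simp [col, h3]
        rw [e4] at hn
        simp at hn
      · by_cases h4 : yy n < Z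
        · have e4 : col n = Sum.inr (Sum.inl ()) := by simp [col, h3, h4]
          rw [e4] at hn
          simp at hn
        · refine ⟨h4, ?_⟩
          rw [key n h3 h4] at hn
          exact Sum.inr.inj (Sum.inr.inj hn)
    have hm1 : 1 * b ≤ yy a * b := Nat.mul_le_mul_right _ hka
    have hm2 : 1 * b ^ b ≤ yy a * b ^ b := Nat.mul_le_mul_right _ hka
    have c1 := key (a ^ b) (by omega) (by rw [hy1]; omega)
    rw [h1'] at c1
    obtain ⟨ya, ta⟩ := back a _ c1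
    obtain ⟨yb, tb⟩ := back b _ (h0'.trans c1)
    obtain ⟨_, tc⟩ := back (a ^ (b ^ b)) _ (h2'.trans c1)
    refine ⟨yy a, yy b, h, by omega, by omega, hh, tb.trans ta.symm, ?_, ?_⟩
    · rw [← hbh, ta, hy1]
    · rw [pow_mul, ← hbh, ta, ← tc, hy2]

end Pool.Agent.L5helper91.EB
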