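import Pool.Agent.L5helper91.EB.Pair

set_option autoImplicit false

namespace Pool.Agent.L5helper91.EB

open Finset

/-- Gallai, returning form, with factor at least two, for block colourings. -/
theorem gallaiS (κ : Type) [Finite κ] (A : Type) [AddCommGroup A] (S F : Finset A) :
    ∃ (N : ℕ) (Z : Finset A), ∀ χ : A → κ, ∃ z ∈ Z, ∃ K : ℕ, 2 ≤ K ∧ K ≤ N ∧
      ∀ s ∈ S, ∀ f ∈ F, χ (z + s + K • f) = χ (z + s) := by
  classical
  obtain ⟨N, Z, h⟩ := gallai (S → κ) A (insert 0 (F.image (fun f => 2 • f)))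
  refine ⟨2 * N, Z, ?_⟩
  intro χ
  obtain ⟨z, hz, K, hK1, hKN, c, hc⟩ := h (fun z => fun s : S => χ (z + s))
  refine ⟨z, hz, 2 * K, by omega, by omega, ?_⟩
  intro s hs f hf
  have h0 := hc 0 (Finset.mem_insert_self _ _)
  have h1 := hc (2 • f) (Finset.mem_insert_of_mem (Finset.mem_image.mpr ⟨f, hf, rfl⟩))
  have h2 := congrFun (h1.trans h0.symm) ⟨s, hs⟩
  simp only [smul_zero, add_zero] at h2
  rw [← h2]
  congr 1
  rw [smul_smul, mul_comm K 2]
  abel

/-- Gallai, returning form (factor at least one). -/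
theorem gallaiR (κ : Type) [Finite κ] (A : Type) [AddCommGroup A] (F : Finset A) :
    ∃ (N : ℕ) (Z : Finset A), ∀ χ : A → κ, ∃ z ∈ Z, ∃ K : ℕ, 1 ≤ K ∧ K ≤ N ∧
      ∀ f ∈ F, χ (z + K • f) = χ z := by
  classical
  obtain ⟨N, Z, h⟩ := gallai κ A (insert 0 F)
  refine ⟨N, Z, ?_⟩
  intro χ
  obtain ⟨z, hz, K, hK1, hKN, c, hc⟩ := h χ
  refine ⟨z, hz, K, hK1, hKN, ?_⟩
  intro f hf
  have h0 := hc 0 (Finset.mem_insert_self _ _)
  have h1 := hc f (Finset.mem_insert_of_mem hf)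
  rw [smul_zero, add_zero] at h0
  rw [h1, h0]

/-- the pattern `x, x + E K, x + K f, x + E K + K f`, with bounds -/
def Pat1 {κ A : Type} [AddCommGroup A] (E : ℕ → A) (F V : Finset A) (B : ℕ) (C : A → κ) : Prop :=
  ∃ x ∈ V, ∃ K : ℕ, 2 ≤ K ∧ K ≤ B ∧ C (x + E K) = C x ∧
    (∀ f ∈ F, C (x + K • f) = C x) ∧ (∀ f ∈ F, C (x + E K + K • f) = C (x + E K))

theorem focus1 (κ : Type) [Finite κ] (A : Type) [AddCommGroup A] (E : ℕ → A) (hE : CA E)
    (F : Finset A) (s : ℕ) : ∃ (V : Finset A) (B : ℕ), ∀ C : A → κ, Pat1 E F V B C ∨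
      ∃ w ∈ V, ∃ P : Finset κ, P.card = s ∧ ∀ p ∈ P, ∃ x ∈ V, ∃ b : ℕ, 2 ≤ b ∧ b ≤ B ∧
        x + E b = w ∧ C x = p ∧ (∀ f ∈ F, C (x + b • f) = C x) ∧
        (∀ f ∈ F, C (w + b • f) = C w) := by
  classical
  induction s with
  | zero =>
    refine ⟨{0}, 0, fun C => Or.inr ⟨0, by simp, ∅, rfl, by simp⟩⟩
  | succ s ih =>
    obtain ⟨V, B, hVB⟩ := ih
    let F₁ : Finset A := (range (B + 1) ×ˢ F).image (fun p => p.1 • p.2) ∪ F
    obtain ⟨N₂, Z₂, hG2⟩ := gallaiR (V → κ) A F₁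
    let G : Finset A := Z₂ ∪ (Z₂ ×ˢ (range (N₂ + 1) ×ˢ F₁)).image (fun p => p.1 + p.2.1 • p.2.2)
    obtain ⟨N₁, Z₁, hG1⟩ := gallaiS κ A ((V ×ˢ range (N₂ + 1)).image (fun p => p.1 - E p.2)) G
    let V₁ : Finset A := (Z₁ ×ˢ (V ×ˢ (range (N₂ + 1) ×ˢ (range (N₁ + 1) ×ˢ Z₂)))).image
      (fun p => p.1 + (p.2.1 - E p.2.2.1) + p.2.2.2.1 • p.2.2.2.2)
    let V₂ : Finset A := (Z₁ ×ˢ (V ×ˢ (range (N₁ + 1) ×ˢ Z₂))).image
      (fun p => p.1 + p.2.1 + E p.2.2.1 + p.2.2.1 • p.2.2.2)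
    refine ⟨V₁ ∪ V₂, (B + 1) * (N₂ * N₁ + 1), ?_⟩
    intro C
    obtain ⟨z, hz, K', hK'2, hK'N, hret⟩ := hG1 C
    obtain ⟨f₀, hf₀, k, hk1, hkN, hv⟩ := hG2
      (fun g => fun w : V => C (z + w + E K' + K' • g))
    have hkr : k ∈ range (N₂ + 1) := Finset.mem_range.mpr (by omega)
    have hK'r : K' ∈ range (N₁ + 1) := Finset.mem_range.mpr (by omega)
    have hEK : E (k * K') = E k + E K' := hE _ _ (by omega) (by omega)
    have hKB : k * K' ≤ N₂ * N₁ := Nat.mul_le_mul hkN hK'N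
    have hK2 : 2 ≤ k * K' := by nlinarith
    -- returns at the lower level
    have hlow : ∀ x ∈ V, ∀ g ∈ G, C (z + (x - E k) + K' • g) = C (z + (x - E k)) := by
      intro x hx g hg
      exact hret _ (Finset.mem_image.mpr ⟨(x, k), Finset.mem_product.mpr ⟨hx, hkr⟩, rfl⟩) g hg
    have hf₀G : f₀ ∈ G := Finset.mem_union_left _ hf₀
    have hgG : ∀ g ∈ F₁, f₀ + k • g ∈ G := by
      intro g hg
      exact Finset.mem_union_right _ (Finset.mem_image.mpr ⟨(f₀, k, g),
        Finset.mem_product.mpr ⟨hf₀, Finset.mem_product.mpr ⟨hkr, hg⟩⟩, rfl⟩)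
    have hlow2 : ∀ x ∈ V, ∀ g ∈ F₁,
        C (z + (x - E k) + K' • f₀ + (k * K') • g) = C (z + (x - E k) + K' • f₀) := by
      intro x hx g hg
      have h1 := hlow x hx _ (hgG g hg)
      have h2 := hlow x hx _ hf₀G
      rw [h2, ← h1]
      congr 1
      rw [smul_add, smul_smul, mul_comm K' k]
      abel
    have hhigh : ∀ w ∈ V, ∀ g ∈ F₁,
        C (z + w + E K' + K' • f₀ + (k * K') • g) = C (z + w + E K' + K' • f₀) := by
      intro w hw g hg
      have h1 := congrFun (hv g hg) ⟨w, hw⟩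
      simp only at h1
      rw [← h1]
      congr 1
      rw [smul_add, smul_smul, mul_comm K' k]
      abel
    have hF₁1 : ∀ f ∈ F, f ∈ F₁ := fun f hf => Finset.mem_union_right _ hf
    have hF₁b : ∀ b : ℕ, b ≤ B → ∀ f ∈ F, b • f ∈ F₁ := by
      intro b hb f hf
      exact Finset.mem_union_left _ (Finset.mem_image.mpr ⟨(b, f),
        Finset.mem_product.mpr ⟨Finset.mem_range.mpr (by omega), hf⟩, rfl⟩)
    have hV₁ : ∀ x ∈ V, z + (x - E k) + K' • f₀ ∈ V₁ := by
      intro x hx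
      exact Finset.mem_image.mpr ⟨(z, x, k, K', f₀), Finset.mem_product.mpr ⟨hz,
        Finset.mem_product.mpr ⟨hx, Finset.mem_product.mpr ⟨hkr,
          Finset.mem_product.mpr ⟨hK'r, hf₀⟩⟩⟩⟩, rfl⟩
    have hV₂ : ∀ w ∈ V, z + w + E K' + K' • f₀ ∈ V₂ := by
      intro w hw
      exact Finset.mem_image.mpr ⟨(z, w, K', f₀), Finset.mem_product.mpr ⟨hz,
        Finset.mem_product.mpr ⟨hw, Finset.mem_product.mpr ⟨hK'r, hf₀⟩⟩⟩, rfl⟩
    have hBB : B ≤ (B + 1) * (N₂ * N₁ + 1) := by nlinarith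
    -- transfer of a pattern of the inner colouring
    have htrans : ∀ x ∈ V, ∀ b : ℕ, 2 ≤ b → b ≤ B →
        C (z + (x + E b - E k) + K' • f₀) = C (z + (x - E k) + K' • f₀) →
        (∀ f ∈ F, C (z + (x + b • f - E k) + K' • f₀) = C (z + (x - E k) + K' • f₀)) →
        (∀ f ∈ F, C (z + (x + E b + b • f - E k) + K' • f₀) =
          C (z + (x + E b - E k) + K' • f₀)) →
        Pat1 E F (V₁ ∪ V₂) ((B + 1) * (N₂ * N₁ + 1)) C := by
      intro x hx b hb2 hbB h1 h2 h3
      refine ⟨z + (x - E k) + K' • f₀, Finset.mem_union_left _ (hV₁ x hx), b, hb2,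
        le_trans hbB hBB, ?_, ?_, ?_⟩
      · rw [← h1]
        congr 1
        abel
      · intro f hf
        rw [← h2 f hf]
        congr 1
        abel
      · intro f hf
        have e1 : z + (x - E k) + K' • f₀ + E b + b • f =
          z + (x + E b + b • f - E k) + K' • f₀ := by abel
        have e2 : z + (x - E k) + K' • f₀ + E b = z + (x + E b - E k) + K' • f₀ := by abel
        rw [e1, e2]
        exact h3 f hf
    rcases hVB (fun u => C (z + (u - E k) + K' • f₀)) with hL | hR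
    · left
      obtain ⟨x, hx, b, hb2, hbB, h1, h2, h3⟩ := hL
      exact htrans x hx b hb2 hbB h1 h2 h3
    · obtain ⟨w, hw, P, hP, hsp⟩ := hR
      by_cases hwP : C (z + (w - E k) + K' • f₀) ∈ P
      · left
        obtain ⟨x, hx, b, hb2, hbB, hxw, hcx, h2, h3⟩ := hsp _ hwP
        subst hxw
        exact htrans x hx b hb2 hbB hcx.symm h2 h3
      · right
        refine ⟨z + w + E K' + K' • f₀, Finset.mem_union_right _ (hV₂ w hw),
          insert (C (z + (w - E k) + K' • f₀)) P, ?_, ?_⟩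
        · rw [Finset.card_insert_of_notMem hwP, hP]
        · intro p hp
          rcases Finset.mem_insert.mp hp with rfl | hp
          · refine ⟨z + (w - E k) + K' • f₀, Finset.mem_union_left _ (hV₁ w hw), k * K', hK2,
              by nlinarith, ?_, rfl, ?_, ?_⟩
            · rw [hEK]
              abel
            · intro f hf
              exact hlow2 w hw f (hF₁1 f hf)
            · intro f hf
              exact hhigh w hw f (hF₁1 f hf)
          · obtain ⟨x, hx, b, hb2, hbB, hxw, hcx, h2, h3⟩ := hsp p hp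
            have hEb : E (b * (k * K')) = E b + E (k * K') := hE _ _ (by omega) (by omega)
            refine ⟨z + (x - E k) + K' • f₀, Finset.mem_union_left _ (hV₁ x hx),
              b * (k * K'), by nlinarith, ?_, ?_, hcx, ?_, ?_⟩
            · calc b * (k * K') ≤ B * (N₂ * N₁) := Nat.mul_le_mul hbB hKB
                _ ≤ (B + 1) * (N₂ * N₁ + 1) := by nlinarith
            · rw [hEb, hEK, ← hxw]
              abel
            · intro f hf
              have h4 := hlow2 x hx _ (hF₁b b hbB f hf)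
              rw [← h4]
              congr 2
              rw [smul_smul, mul_comm]
            · intro f hf
              have h4 := hhigh w hw _ (hF₁b b hbB f hf)
              rw [← h4]
              congr 2
              rw [smul_smul, mul_comm]

theorem P1 (κ : Type) [Finite κ] (A : Type) [AddCommGroup A] (E : ℕ → A) (hE : CA E)
    (F : Finset A) : ∃ (V : Finset A) (B : ℕ), ∀ C : A → κ, Pat1 E F V B C := by
  classical
  have := Fintype.ofFinite κ
  obtain ⟨V, B, h⟩ := focus1 κ A E hE F (Fintype.card κ)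
  refine ⟨V, B, fun C => ?_⟩
  rcases h C with h | ⟨w, hw, P, hP, hsp⟩
  · exact h
  · have hPu : P = Finset.univ := Finset.eq_univ_of_card P hP
    obtain ⟨x, hx, b, hb2, hbB, hxw, hcx, h2, h3⟩ := hsp (C w) (by rw [hPu]; exact Finset.mem_univ _)
    subst hxw
    exact ⟨x, hx, b, hb2, hbB, hcx.symm, h2, h3⟩

end Pool.Agent.L5helper91.EB
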