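import Pool.Agent.L5helper91.EB.Ret

set_option autoImplicit false

namespace Pool.Agent.L5helper91.EB

open Finset

/-- returns at two levels -/
theorem twoLevel (κ : Type) [Finite κ] (G D : Type) [AddCommGroup G] [AddCommGroup D]
    (E₁ : ℕ → D) (F : Finset G) (W₁ W₂ : Finset D) :
    ∃ (Z : Finset G) (B : ℕ), ∀ χ ψ : G → D → κ, ∃ z ∈ Z, ∃ k K' : ℕ, 1 ≤ k ∧ k ≤ B ∧ 2 ≤ K' ∧
      K' ≤ B ∧ (∀ f ∈ F, ∀ e ∈ W₁, χ (z + (k * K') • f) (e - E₁ k) = χ z (e - E₁ k)) ∧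
      (∀ f ∈ F, ∀ e ∈ W₂, ψ (z + (k * K') • f) (e + E₁ K') = ψ z (e + E₁ K')) := by
  classical
  obtain ⟨N₂, Z₂, hG2⟩ := gallaiR (W₂ → κ) G F
  let G₀ : Finset G := Z₂ ∪ (Z₂ ×ˢ (range (N₂ + 1) ×ˢ F)).image (fun p => p.1 + p.2.1 • p.2.2)
  obtain ⟨N₁, Z₁, hG1⟩ := gallaiS ((W₁ × (range (N₂ + 1) : Finset ℕ)) → κ) G {0} G₀
  refine ⟨(Z₁ ×ˢ (range (N₁ + 1) ×ˢ Z₂)).image (fun p => p.1 + p.2.1 • p.2.2), N₁ + N₂, ?_⟩
  intro χ ψ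
  obtain ⟨z₀, hz₀, K', hK'2, hK'N, hret⟩ := hG1 (fun g => fun p => χ g ((p.1 : D) - E₁ p.2))
  obtain ⟨f₀, hf₀, k, hk1, hkN, hv⟩ := hG2
    (fun g => fun w : W₂ => ψ (z₀ + K' • g) ((w : D) + E₁ K'))
  have hkr : k ∈ range (N₂ + 1) := Finset.mem_range.mpr (by omega)
  have hK'r : K' ∈ range (N₁ + 1) := Finset.mem_range.mpr (by omega)
  have hlow : ∀ e ∈ W₁, ∀ g ∈ G₀, χ (z₀ + K' • g) (e - E₁ k) = χ z₀ (e - E₁ k) := by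
    intro e he g hg
    have h1 := congrFun (hret 0 (by simp) g hg) (⟨e, he⟩, ⟨k, hkr⟩)
    simpa using h1
  have hf₀G : f₀ ∈ G₀ := Finset.mem_union_left _ hf₀
  have hgG : ∀ g ∈ F, f₀ + k • g ∈ G₀ := by
    intro g hg
    exact Finset.mem_union_right _ (Finset.mem_image.mpr ⟨(f₀, k, g),
      Finset.mem_product.mpr ⟨hf₀, Finset.mem_product.mpr ⟨hkr, hg⟩⟩, rfl⟩)
  have hsm : ∀ f : G, z₀ + K' • f₀ + (k * K') • f = z₀ + K' • (f₀ + k • f) := by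
    intro f
    rw [smul_add, smul_smul, mul_comm K' k]
    abel
  refine ⟨z₀ + K' • f₀, Finset.mem_image.mpr ⟨(z₀, K', f₀), Finset.mem_product.mpr ⟨hz₀,
    Finset.mem_product.mpr ⟨hK'r, hf₀⟩⟩, rfl⟩, k, K', hk1, by omega, hK'2, by omega, ?_, ?_⟩
  · intro f hf e he
    rw [hsm, hlow e he _ (hgG f hf), hlow e he _ hf₀G]
  · intro f hf e he
    have h1 := congrFun (hv f hf) ⟨e, he⟩
    rw [hsm]
    exact h1

/-- van der Waerden in a multiplicatively syndetic set -/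
theorem synd (N : ℕ) (Y : Finset ℤ) : ∃ R : ℕ, ∀ H : ℕ → Prop,
    (∀ y : ℕ, 1 ≤ y → ∃ k : ℕ, 1 ≤ k ∧ k ≤ N ∧ H (k * y)) →
    ∃ q m : ℕ, 1 ≤ q ∧ q ≤ R ∧ m ≤ R ∧ ∀ y ∈ Y, ∃ n : ℕ, 1 ≤ n ∧ n ≤ R ∧
      (n : ℤ) = (q : ℤ) * y + m ∧ H n := by
  classical
  obtain ⟨N₁, Z, hG⟩ := gallai (Fin (N + 1)) ℤ (insert 0 Y)
  set SZ : ℕ := ∑ z ∈ Z, z.natAbs with hSZ
  set SY : ℕ := ∑ y ∈ (insert 0 Y), y.natAbs with hSY
  set M₀ : ℕ := SZ + N₁ * SY + 1 with hM₀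
  refine ⟨N * (N₁ + 2 * M₀), ?_⟩
  intro H hH
  choose! kf hk1 hkN hkH using hH
  obtain ⟨z₁, hz₁, K₁, hK₁1, hK₁N, c, hc⟩ := hG (fun n : ℤ =>
    if h : kf (n + M₀).toNat ≤ N then (⟨kf (n + M₀).toNat, by omega⟩ : Fin (N + 1)) else 0)
  have hzS : z₁.natAbs ≤ SZ :=
    Finset.single_le_sum (f := fun z : ℤ => z.natAbs) (fun _ _ => Nat.zero_le _) hz₁
  have hyS : ∀ y ∈ (insert 0 Y), y.natAbs ≤ SY := fun y hy =>
    Finset.single_le_sum (f := fun z : ℤ => z.natAbs) (fun _ _ => Nat.zero_le _) hy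
  have hpos : ∀ y ∈ (insert 0 Y), 1 ≤ z₁ + (K₁ : ℤ) * y + M₀ ∧
      z₁ + (K₁ : ℤ) * y + M₀ ≤ 2 * M₀ := by
    intro y hy
    have h1 := hyS y hy
    have h2 : ((K₁ : ℤ) * y).natAbs ≤ N₁ * SY := by
      rw [Int.natAbs_mul, Int.natAbs_natCast]
      exact Nat.mul_le_mul hK₁N h1
    omega
  have hval : ∀ y ∈ (insert 0 Y), kf (z₁ + (K₁ : ℤ) * y + M₀).toNat = (c : ℕ) := by
    intro y hy
    have h1 := hc y hy
    have h2 := hpos y hy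
    have h3 : 1 ≤ (z₁ + (K₁ : ℤ) * y + M₀).toNat := by omega
    have h4 := hkN _ h3
    rw [nsmul_eq_mul] at h1
    rw [dif_pos h4] at h1
    rw [← h1]
  have h0 := hval 0 (Finset.mem_insert_self _ _)
  have hp0 := hpos 0 (Finset.mem_insert_self _ _)
  have hc1 : 1 ≤ (c : ℕ) := by
    rw [← h0]
    apply hk1
    omega
  have hcN : (c : ℕ) ≤ N := by
    have := c.isLt
    omega
  rw [mul_zero, add_zero] at hp0
  refine ⟨(c : ℕ) * K₁, (c : ℕ) * (z₁ + M₀).toNat, Nat.mul_pos hc1 hK₁1, ?_, ?_, ?_⟩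
  · exact Nat.mul_le_mul hcN (by omega)
  · exact Nat.mul_le_mul hcN (by omega)
  · intro y hy
    have hy' : y ∈ insert 0 Y := Finset.mem_insert_of_mem hy
    have h2 := hpos y hy'
    have h3 : 1 ≤ (z₁ + (K₁ : ℤ) * y + M₀).toNat := by omega
    refine ⟨(c : ℕ) * (z₁ + (K₁ : ℤ) * y + M₀).toNat, Nat.mul_pos hc1 h3,
      Nat.mul_le_mul hcN (by omega), ?_, ?_⟩
    · push_cast
      have e1 : (((z₁ + (K₁ : ℤ) * y + M₀).toNat : ℕ) : ℤ) = z₁ + (K₁ : ℤ) * y + M₀ :=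
        Int.toNat_of_nonneg (by omega)
      have e2 : (((z₁ + (M₀ : ℤ)).toNat : ℕ) : ℤ) = z₁ + M₀ := Int.toNat_of_nonneg (by omega)
      have e3 : max (z₁ + (K₁ : ℤ) * y + M₀) 0 = z₁ + (K₁ : ℤ) * y + M₀ := by omega
      have e4 : max (z₁ + (M₀ : ℤ)) 0 = z₁ + M₀ := by omega
      first
        | (rw [e1, e2]; ring)
        | (rw [e3, e4]; ring)
    · have := hkH _ h3
      rw [hval y hy'] at this
      exact this

end Pool.Agent.L5helper91.EB
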