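import Pool.Agent.L5helper91.EB.Star

set_option autoImplicit false

namespace Pool.Agent.L5helper91.EB

open Finset

/-- blocks of `χ` come back in `ψ` -/
def MR {κ G D : Type} [AddCommGroup G] [AddCommGroup D] (E₁ : ℕ → D) (NN : Finset D → ℕ)
    (χ ψ : G → D → κ) : Prop :=
  ∀ (W : Finset D) (g : G) (e : D) (b : ℕ), 1 ≤ b → ∃ k : ℕ, 1 ≤ k ∧ k ≤ NN W ∧
    ∀ w ∈ W, ψ g (e + w + E₁ (b * k)) = χ g (e + w)

theorem star (κ : Type) [Finite κ] (D : Type) [AddCommGroup D] (E₁ : ℕ → D) (hE₁ : CA E₁)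
    (NN : Finset D → ℕ) (s : ℕ) :
    ∀ (G : Type) [AddCommGroup G] (E₂ : ℕ → G), CA E₂ → ∀ (v : G) (F₀ : Finset G),
      ∃ (V : Finset G) (W : Finset D), ∀ χ ψ : G → D → κ, MR E₁ NN χ ψ →
        ∀ S : D → Finset κ, (∀ e ∈ W, (S e).card ≤ s) → (∀ g ∈ V, ∀ e ∈ W, χ g e ∈ S e) →
        ∃ (g : G) (e : D) (b : ℕ), 2 ≤ b ∧ ψ g (e + E₁ b) = χ g e ∧
          χ (g + b • (E₂ b + v)) e = χ g e ∧ ∀ f ∈ F₀, χ (g + b • f) e = χ g e := by
  classical
  induction s with
  | zero =>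
    intro G _ E₂ _ v F₀
    refine ⟨{0}, {0}, ?_⟩
    intro χ ψ _ S hS hV
    have h1 : S 0 = ∅ := Finset.card_eq_zero.mp (Nat.le_zero.mp (hS 0 (by simp)))
    have h2 := hV 0 (by simp) 0 (by simp)
    rw [h1] at h2
    simp at h2
  | succ s ih =>
    intro G _ E₂ hE₂ v F₀
    obtain ⟨V', W', hmain⟩ := ih (ℤ × ℤ × G) (fun b => ((0 : ℤ), (0 : ℤ), E₂ b))
      (by
        intro m n hm hn
        simp [hE₂ m n hm hn])
      ((1 : ℤ), (1 : ℤ), v) (F₀.image (fun f => ((0 : ℤ), (0 : ℤ), f)))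
    obtain ⟨R, hR⟩ := synd (NN W') (V'.image (fun h => h.1))
    -- directions
    let gg : (ℤ × ℤ × G) → ℕ → G := fun h q => q • (h.2.2 + h.2.1 • E₂ q)
    let f1 : (ℤ × ℤ × G) → ℕ → ℕ → G := fun h q n => gg h q - n • (E₂ n + v)
    let F : Finset G := (V' ×ˢ (range (R + 1) ×ˢ range (R + 1))).image
        (fun p => f1 p.1 p.2.1 p.2.2) ∪
      ((V' ×ˢ (range (R + 1) ×ˢ range (R + 1))) ×ˢ F₀).image
        (fun p => f1 p.1.1 p.1.2.1 p.1.2.2 + p.1.2.2 • p.2)
    let W₂ : Finset D := (W' ×ˢ range (R + 1)).image (fun p => p.1 + E₁ p.2)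
    obtain ⟨Z, B, hZ⟩ := twoLevel κ G D E₁ F W' W₂
    let Θ : G → ℕ → ℕ → ℕ → (ℤ × ℤ × G) → G := fun z q m K h =>
      z + ((q : ℤ) * h.1 + m) • (K • E₂ K) + K • gg h q
    let VΘ : Finset G := (Z ×ˢ (range (R + 1) ×ˢ (range (R + 1) ×ˢ (range (B * B + 1) ×ˢ V')))).image
      (fun p => Θ p.1 p.2.1 p.2.2.1 p.2.2.2.1 p.2.2.2.2)
    refine ⟨Z ∪ VΘ, (W' ×ˢ range (B + 1)).image (fun p => p.1 - E₁ p.2), ?_⟩
    intro χ ψ hMR S hS hV
    obtain ⟨z, hz, k, K', hk1, hkB, hK'2, hK'B, hlow, hhigh⟩ := hZ χ ψ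
    set K : ℕ := k * K' with hK
    have hK2 : 2 ≤ K := by rw [hK]; nlinarith
    have hKB : K ≤ B * B := by rw [hK]; exact Nat.mul_le_mul hkB hK'B
    have hEK : E₁ K = E₁ k + E₁ K' := hE₁ _ _ (by omega) (by omega)
    have hWm : ∀ e ∈ W', e - E₁ k ∈ (W' ×ˢ range (B + 1)).image (fun p => p.1 - E₁ p.2) := by
      intro e he
      exact Finset.mem_image.mpr ⟨(e, k), Finset.mem_product.mpr ⟨he,
        Finset.mem_range.mpr (by omega)⟩, rfl⟩
    -- the syndetic set of returns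
    obtain ⟨q, m, hq1, hqR, hmR, hY⟩ := hR
      (fun n => ∀ e ∈ W', ψ z (e - E₁ k + E₁ (n * K)) = χ z (e - E₁ k))
      (by
        intro y hy
        obtain ⟨k₁, hk₁1, hk₁N, hk₁⟩ := hMR W' z (- E₁ k) (y * K)
          (Nat.mul_pos hy (by omega))
        refine ⟨k₁, hk₁1, hk₁N, ?_⟩
        intro e he
        have h1 := hk₁ e he
        have e1 : - E₁ k + e = e - E₁ k := by abel
        rw [e1] at h1
        rw [← h1]
        congr 2
        ring_nf)
    have hqr : q ∈ range (R + 1) := Finset.mem_range.mpr (by omega)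
    have hmr : m ∈ range (R + 1) := Finset.mem_range.mpr (by omega)
    have hKr : K ∈ range (B * B + 1) := Finset.mem_range.mpr (by omega)
    have hΘV : ∀ h ∈ V', Θ z q m K h ∈ Z ∪ VΘ := by
      intro h hh
      exact Finset.mem_union_right _ (Finset.mem_image.mpr ⟨(z, q, m, K, h),
        Finset.mem_product.mpr ⟨hz, Finset.mem_product.mpr ⟨hqr, Finset.mem_product.mpr ⟨hmr,
          Finset.mem_product.mpr ⟨hKr, hh⟩⟩⟩⟩, rfl⟩)
    by_cases hcase : ∃ h ∈ V', ∃ e ∈ W', χ (Θ z q m K h) (e - E₁ k) = χ z (e - E₁ k)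
    · obtain ⟨h, hh, e, he, hred⟩ := hcase
      obtain ⟨n, hn1, hnR, hnval, hnH⟩ := hY h.1 (Finset.mem_image.mpr ⟨h, hh, rfl⟩)
      have hnr : n ∈ range (R + 1) := Finset.mem_range.mpr (by omega)
      have hfF : f1 h q n ∈ F := Finset.mem_union_left _ (Finset.mem_image.mpr ⟨(h, q, n),
        Finset.mem_product.mpr ⟨hh, Finset.mem_product.mpr ⟨hqr, hnr⟩⟩, rfl⟩)
      have hxred : χ (z + K • f1 h q n) (e - E₁ k) = χ z (e - E₁ k) := hlow _ hfF e he
      refine ⟨z + K • f1 h q n, e - E₁ k, n * K, by nlinarith, ?_, ?_, ?_⟩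
      · have e1 : e - E₁ k + E₁ (n * K) = e + E₁ n + E₁ K' := by
          rw [hE₁ n K (by omega) (by omega), hEK]
          abel
        have h2 := hhigh _ hfF (e + E₁ n) (Finset.mem_image.mpr ⟨(e, n),
          Finset.mem_product.mpr ⟨he, hnr⟩, rfl⟩)
        have h3 := hnH e he
        rw [e1] at h3
        rw [e1, h2, h3, hxred]
      · rw [hxred, ← hred]
        congr 1
        change z + K • (gg h q - n • (E₂ n + v)) + (n * K) • (E₂ (n * K) + v) =
          z + ((q : ℤ) * h.1 + m) • (K • E₂ K) + K • gg h q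
        rw [← hnval, natCast_zsmul, hE₂ n K (by omega) (by omega)]
        simp only [smul_add, smul_sub, smul_smul]
        rw [mul_comm K n]
        abel
      · intro f hf
        have hfF2 : f1 h q n + n • f ∈ F := Finset.mem_union_right _
          (Finset.mem_image.mpr ⟨((h, q, n), f), Finset.mem_product.mpr
            ⟨Finset.mem_product.mpr ⟨hh, Finset.mem_product.mpr ⟨hqr, hnr⟩⟩, hf⟩, rfl⟩)
        have h2 := hlow _ hfF2 e he
        rw [hxred, ← h2]
        congr 1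
        rw [smul_add K, smul_smul, mul_comm K n, add_assoc]
    · push Not at hcase
      obtain ⟨h, e, b', hb'2, h1, h2, h3⟩ := hmain
        (fun h e => χ (Θ z q m K h) (e - E₁ k))
        (fun h e => ψ (Θ z q m K h) (e - E₁ k + E₁ (q * K)))
        (by
          intro W g e b hb
          obtain ⟨k₁, hk₁1, hk₁N, hk₁⟩ := hMR W (Θ z q m K g) (e - E₁ k) (b * (q * K))
            (Nat.mul_pos hb (Nat.mul_pos hq1 (by omega)))
          refine ⟨k₁, hk₁1, hk₁N, ?_⟩
          intro w hw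
          have h1 := hk₁ w hw
          have e0 : e + w - E₁ k = e - E₁ k + w := by abel
          have e1 : e + w + E₁ (b * k₁) - E₁ k + E₁ (q * K) =
              e - E₁ k + w + E₁ (b * (q * K) * k₁) := by
            have e2 : b * (q * K) * k₁ = (b * k₁) * (q * K) := by ring
            rw [e2, hE₁ (b * k₁) (q * K) (Nat.mul_pos hb hk₁1).ne'
              (Nat.mul_pos hq1 (by omega)).ne']
            abel
          show ψ (Θ z q m K g) (e + w + E₁ (b * k₁) - E₁ k + E₁ (q * K)) =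
            χ (Θ z q m K g) (e + w - E₁ k)
          rw [e1, e0]
          exact h1)
        (fun e => (S (e - E₁ k)).erase (χ z (e - E₁ k)))
        (by
          intro e he
          have h1 := hV z (Finset.mem_union_left _ hz) _ (hWm e he)
          have h2 := hS _ (hWm e he)
          rw [Finset.card_erase_of_mem h1]
          omega)
        (by
          intro h hh e he
          exact Finset.mem_erase.mpr ⟨hcase h hh e he, hV _ (hΘV h hh) _ (hWm e he)⟩)
      have hb1 : 2 ≤ b' * (q * K) := by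
        have : 1 ≤ q * K := Nat.mul_pos hq1 (by omega)
        nlinarith
      refine ⟨Θ z q m K h, e - E₁ k, b' * (q * K), hb1, ?_, ?_, ?_⟩
      · have e1 : e - E₁ k + E₁ (b' * (q * K)) = e + E₁ b' - E₁ k + E₁ (q * K) := by
          rw [hE₁ b' (q * K) (by omega) (Nat.mul_pos hq1 (by omega)).ne']
          abel
        rw [e1]
        exact h1
      · refine Eq.trans ?_ h2
        congr 1
        have e1 : (h + b' • (((0 : ℤ), (0 : ℤ), E₂ b') + ((1 : ℤ), (1 : ℤ), v))).1 =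
            h.1 + b' := by simp
        have e2 : (h + b' • (((0 : ℤ), (0 : ℤ), E₂ b') + ((1 : ℤ), (1 : ℤ), v))).2.1 =
            h.2.1 + b' := by simp
        have e3 : (h + b' • (((0 : ℤ), (0 : ℤ), E₂ b') + ((1 : ℤ), (1 : ℤ), v))).2.2 =
            h.2.2 + b' • (E₂ b' + v) := by simp
        change z + ((q : ℤ) * h.1 + m) • (K • E₂ K) + K • (q • (h.2.2 + h.2.1 • E₂ q)) +
          (b' * (q * K)) • (E₂ (b' * (q * K)) + v) =
          z + ((q : ℤ) * (h + b' • (((0 : ℤ), (0 : ℤ), E₂ b') + ((1 : ℤ), (1 : ℤ), v))).1 + m) •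
            (K • E₂ K) + K • (q • ((h + b' • (((0 : ℤ), (0 : ℤ), E₂ b') +
              ((1 : ℤ), (1 : ℤ), v))).2.2 + (h + b' • (((0 : ℤ), (0 : ℤ), E₂ b') +
              ((1 : ℤ), (1 : ℤ), v))).2.1 • E₂ q))
        rw [e1, e2, e3, hE₂ b' (q * K) (by omega) (Nat.mul_pos hq1 (by omega)).ne',
          hE₂ q K (by omega) (by omega)]
        have e4 : ((q : ℤ) * (h.1 + b') + m) • (K • E₂ K) =
            ((q : ℤ) * h.1 + m) • (K • E₂ K) + (q * b') • (K • E₂ K) := by
          rw [show (q : ℤ) * (h.1 + b') + m = ((q : ℤ) * h.1 + m) + ((q * b' : ℕ) : ℤ) by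
            push_cast; ring, add_smul, natCast_zsmul]
        have e5 : (h.2.1 + (b' : ℤ)) • E₂ q = h.2.1 • E₂ q + b' • E₂ q := by
          rw [add_smul, natCast_zsmul]
        rw [e4, e5]
        simp only [smul_add, smul_smul]
        have e6 : K * (q * b') = b' * (q * K) := by ring
        have e7 : q * b' * K = b' * (q * K) := by ring
        simp only [e6, e7]
        abel
      · intro f hf
        have h4 := h3 ((0 : ℤ), (0 : ℤ), f) (Finset.mem_image.mpr ⟨f, hf, rfl⟩)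
        refine Eq.trans ?_ h4
        congr 1
        have e1 : (h + b' • (((0 : ℤ), (0 : ℤ), f) : ℤ × ℤ × G)).1 = h.1 := by simp
        have e2 : (h + b' • (((0 : ℤ), (0 : ℤ), f) : ℤ × ℤ × G)).2.1 = h.2.1 := by simp
        have e3 : (h + b' • (((0 : ℤ), (0 : ℤ), f) : ℤ × ℤ × G)).2.2 = h.2.2 + b' • f := by simp
        change z + ((q : ℤ) * h.1 + m) • (K • E₂ K) + K • (q • (h.2.2 + h.2.1 • E₂ q)) +
          (b' * (q * K)) • f =
          z + ((q : ℤ) * (h + b' • (((0 : ℤ), (0 : ℤ), f) : ℤ × ℤ × G)).1 + m) •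
            (K • E₂ K) + K • (q • ((h + b' • (((0 : ℤ), (0 : ℤ), f) : ℤ × ℤ × G)).2.2 +
              (h + b' • (((0 : ℤ), (0 : ℤ), f) : ℤ × ℤ × G)).2.1 • E₂ q))
        rw [e1, e2, e3]
        simp only [smul_add, smul_smul]
        have e6 : K * (q * b') = b' * (q * K) := by ring
        simp only [e6]
        abel

end Pool.Agent.L5helper91.EB
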