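import Pool.Agent.L5helper91.EB.All

set_option autoImplicit false

namespace Pool.Agent.L5helper91.EB

open Finset

/-- Gallai with a bound that depends only on the number of directions. -/
theorem gallaiU (κ : Type) [Finite κ] (α : Type) [Finite α] :
    ∃ N : ℕ, ∀ (A : Type) [AddCommGroup A] (f : α → A), ∃ Z : Finset A, ∀ χ : A → κ,
      ∃ z ∈ Z, ∃ K : ℕ, 1 ≤ K ∧ K ≤ N ∧ ∃ c : κ, ∀ a : α, χ (z + K • f a) = c := by
  classical
  obtain ⟨ι, _inst, hι⟩ := Combinatorics.Line.exists_mono_in_high_dimension α κ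
  have := Fintype.ofFinite α
  refine ⟨Fintype.card ι, ?_⟩
  intro A _ f
  refine ⟨(Finset.univ : Finset (ι → Option α)).image
    (fun g => ∑ i, ((g i).map f).getD 0), ?_⟩
  intro χ
  obtain ⟨l, c, hl⟩ := hι (fun v => χ (∑ i, f (v i)))
  refine ⟨∑ i, ((l.idxFun i).map f).getD 0, ?_,
    (Finset.univ.filter (fun i => l.idxFun i = none)).card, ?_, ?_, c, ?_⟩
  · exact Finset.mem_image.mpr ⟨l.idxFun, Finset.mem_univ _, rfl⟩
  · obtain ⟨i, hi⟩ := l.proper
    exact Finset.card_pos.mpr ⟨i, by simp [hi]⟩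
  · exact Finset.card_le_univ _
  · intro a
    rw [← hl a]
    congr 1
    rw [← Finset.sum_const, Finset.sum_filter, ← Finset.sum_add_distrib]
    apply Finset.sum_congr rfl
    intro i _
    by_cases hi : l.idxFun i = none
    · rw [l.apply_none _ _ hi]
      simp [hi]
    · obtain ⟨y, hy⟩ := Option.ne_none_iff_exists.mp hi
      rw [l.apply_some hy.symm]
      simp [← hy]

/-- returns, factor `t * K` with `K` bounded independently of `t` -/
theorem gallaiT (κ : Type) [Finite κ] (A : Type) [AddCommGroup A] (F : Finset A) :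
    ∃ N : ℕ, ∀ t : ℕ, 1 ≤ t → ∃ Z : Finset A, ∀ χ : A → κ, ∃ z ∈ Z, ∃ K : ℕ, 2 ≤ K ∧ K ≤ N ∧
      ∀ f ∈ F, χ (z + (t * K) • f) = χ z := by
  classical
  obtain ⟨N, h⟩ := gallaiU κ (Option F)
  refine ⟨2 * N, ?_⟩
  intro t _
  obtain ⟨Z, hZ⟩ := h A (fun o => (o.map (fun x : F => (2 * t) • (x : A))).getD 0)
  refine ⟨Z, ?_⟩
  intro χ
  obtain ⟨z, hz, K, hK1, hKN, c, hc⟩ := hZ χ
  refine ⟨z, hz, 2 * K, by omega, by omega, ?_⟩
  intro f hf
  have h0 := hc none
  have h1 := hc (some ⟨f, hf⟩)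
  simp only [Option.map_none, Option.getD_none, smul_zero, add_zero] at h0
  simp only [Option.map_some, Option.getD_some] at h1
  rw [h0, ← h1]
  congr 2
  rw [smul_smul]
  congr 1
  ring

/-- returns at two levels -/
theorem twoLevelT (κ : Type) [Finite κ] (G D : Type) [AddCommGroup G] [AddCommGroup D]
    (E₁ : ℕ → D) (F : Finset G) (W₁ W₂ : Finset D) :
    ∃ B : ℕ, ∀ t : ℕ, 1 ≤ t → ∃ Z : Finset G, ∀ χ ψ : G → D → κ, ∃ z ∈ Z, ∃ k K' : ℕ,
      1 ≤ k ∧ k ≤ B ∧ 2 ≤ K' ∧ K' ≤ t * B ∧ t ∣ K' ∧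
      (∀ f ∈ F, ∀ e ∈ W₁, χ (z + (k * K') • f) (e - E₁ k) = χ z (e - E₁ k)) ∧
      (∀ f ∈ F, ∀ e ∈ W₂, ψ (z + (k * K') • f) (e + E₁ K') = ψ z (e + E₁ K')) := by
  classical
  obtain ⟨N₂, Z₂, hG2⟩ := gallaiR (W₂ → κ) G F
  let G₀ : Finset G := Z₂ ∪ (Z₂ ×ˢ (range (N₂ + 1) ×ˢ F)).image (fun p => p.1 + p.2.1 • p.2.2)
  obtain ⟨N₁, hG1⟩ := gallaiT ((W₁ × (range (N₂ + 1) : Finset ℕ)) → κ) G G₀
  refine ⟨N₁ + N₂, ?_⟩
  intro t ht
  obtain ⟨Z₁, hG1⟩ := hG1 t ht
  refine ⟨(Z₁ ×ˢ (range (t * N₁ + 1) ×ˢ Z₂)).image (fun p => p.1 + p.2.1 • p.2.2), ?_⟩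
  intro χ ψ
  obtain ⟨z₀, hz₀, K₀, hK₀2, hK₀N, hret⟩ := hG1 (fun g => fun p => χ g ((p.1 : D) - E₁ p.2))
  obtain ⟨K', hK'⟩ : ∃ K' : ℕ, K' = t * K₀ := ⟨_, rfl⟩
  rw [← hK'] at hret
  have hK'2 : 2 ≤ K' := by rw [hK']; nlinarith
  have hK'N : K' ≤ t * N₁ := by rw [hK']; exact Nat.mul_le_mul_left t hK₀N
  obtain ⟨f₀, hf₀, k, hk1, hkN, hv⟩ := hG2
    (fun g => fun w : W₂ => ψ (z₀ + K' • g) ((w : D) + E₁ K'))
  have hkr : k ∈ range (N₂ + 1) := Finset.mem_range.mpr (by omega)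
  have hK'r : K' ∈ range (t * N₁ + 1) := Finset.mem_range.mpr (by omega)
  have hlow : ∀ e ∈ W₁, ∀ g ∈ G₀, χ (z₀ + K' • g) (e - E₁ k) = χ z₀ (e - E₁ k) := by
    intro e he g hg
    have h1 := congrFun (hret g hg) (⟨e, he⟩, ⟨k, hkr⟩)
    simpa using h1
  have hf₀G : f₀ ∈ G₀ := Finset.mem_union_left _ hf₀
  have hgG : ∀ g ∈ F, f₀ + k • g ∈ G₀ := by
    intro g hg
    exact Finset.mem_union_right _ (Finset.mem_image.mpr ⟨(f₀, k, g),
      Finset.mem_product.mpr ⟨hf₀, Finset.mem_product.mpr ⟨hkr, hg⟩⟩, rfl⟩)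
  have hsm : ∀ f : G, z₀ + K' • f₀ + (k * K') • f = z₀ + K' • (f₀ + k • f) := by
    intro f
    rw [smul_add, smul_smul, mul_comm K' k]
    abel
  refine ⟨z₀ + K' • f₀, Finset.mem_image.mpr ⟨(z₀, K', f₀), Finset.mem_product.mpr ⟨hz₀,
    Finset.mem_product.mpr ⟨hK'r, hf₀⟩⟩, rfl⟩, k, K', hk1, by omega, hK'2,
    le_trans hK'N (Nat.mul_le_mul_left t (by omega)), ⟨K₀, hK'⟩, ?_, ?_⟩
  · intro f hf e he
    rw [hsm, hlow e he _ (hgG f hf), hlow e he _ hf₀G]
  · intro f hf e he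
    have h1 := congrFun (hv f hf) ⟨e, he⟩
    rw [hsm]
    exact h1

theorem starT (κ : Type) [Finite κ] (D : Type) [AddCommGroup D] (E₁ : ℕ → D) (hE₁ : CA E₁)
    (NN : Finset D → ℕ) (s : ℕ) :
    ∀ (G : Type) [AddCommGroup G] (E₂ : ℕ → G), CA E₂ → ∀ (v : G) (F₀ : Finset G),
      ∃ L : ℕ, ∀ t : ℕ, 1 ≤ t → ∃ (V : Finset G) (W : Finset D), ∀ χ ψ : G → D → κ,
        MR E₁ NN χ ψ →
        ∀ S : D → Finset κ, (∀ e ∈ W, (S e).card ≤ s) → (∀ g ∈ V, ∀ e ∈ W, χ g e ∈ S e) →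
        ∃ (g : G) (e : D) (b : ℕ), 2 ≤ b ∧ t ∣ b ∧ b ≤ t * L ∧ ψ g (e + E₁ b) = χ g e ∧
          χ (g + b • (E₂ b + v)) e = χ g e ∧ ∀ f ∈ F₀, χ (g + b • f) e = χ g e := by
  classical
  induction s with
  | zero =>
    intro G _ E₂ _ v F₀
    refine ⟨0, fun t _ => ⟨{0}, {0}, ?_⟩⟩
    intro χ ψ _ S hS hV
    have h1 : S 0 = ∅ := Finset.card_eq_zero.mp (Nat.le_zero.mp (hS 0 (by simp)))
    have h2 := hV 0 (by simp) 0 (by simp)
    rw [h1] at h2
    simp at h2
  | succ s ih =>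
    intro G _ E₂ hE₂ v F₀
    obtain ⟨L', hL'⟩ := ih (ℤ × ℤ × G) (fun b => ((0 : ℤ), (0 : ℤ), E₂ b))
      (by
        intro m n hm hn
        simp [hE₂ m n hm hn])
      ((1 : ℤ), (1 : ℤ), v) (F₀.image (fun f => ((0 : ℤ), (0 : ℤ), f)))
    obtain ⟨V', W', hmain⟩ := hL' 1 le_rfl
    obtain ⟨R, hR⟩ := synd (NN W') (V'.image (fun h => h.1))
    -- directions
    let gg : (ℤ × ℤ × G) → ℕ → G := fun h q => q • (h.2.2 + h.2.1 • E₂ q)
    let f1 : (ℤ × ℤ × G) → ℕ → ℕ → G := fun h q n => gg h q - n • (E₂ n + v)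
    let F : Finset G := (V' ×ˢ (range (R + 1) ×ˢ range (R + 1))).image
        (fun p => f1 p.1 p.2.1 p.2.2) ∪
      ((V' ×ˢ (range (R + 1) ×ˢ range (R + 1))) ×ˢ F₀).image
        (fun p => f1 p.1.1 p.1.2.1 p.1.2.2 + p.1.2.2 • p.2)
    let W₂ : Finset D := (W' ×ˢ range (R + 1)).image (fun p => p.1 + E₁ p.2)
    obtain ⟨B, hB⟩ := twoLevelT κ G D E₁ F W' W₂
    refine ⟨(L' + 1) * ((R + 1) * (B * B + 1)), ?_⟩
    intro t ht
    obtain ⟨Z, hZ⟩ := hB t ht
    let Θ : G → ℕ → ℕ → ℕ → (ℤ × ℤ × G) → G := fun z q m K h =>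
      z + ((q : ℤ) * h.1 + m) • (K • E₂ K) + K • gg h q
    let VΘ : Finset G := (Z ×ˢ (range (R + 1) ×ˢ (range (R + 1) ×ˢ (range (t * (B * B) + 1) ×ˢ V')))).image
      (fun p => Θ p.1 p.2.1 p.2.2.1 p.2.2.2.1 p.2.2.2.2)
    refine ⟨Z ∪ VΘ, (W' ×ˢ range (B + 1)).image (fun p => p.1 - E₁ p.2), ?_⟩
    intro χ ψ hMR S hS hV
    obtain ⟨z, hz, k, K', hk1, hkB, hK'2, hK'B, htK', hlow, hhigh⟩ := hZ χ ψ
    set K : ℕ := k * K' with hK
    have hK2 : 2 ≤ K := by rw [hK]; nlinarith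
    have hKB : K ≤ t * (B * B) := by
      rw [hK]
      calc k * K' ≤ B * (t * B) := Nat.mul_le_mul hkB hK'B
        _ = t * (B * B) := by ring
    have htK : t ∣ K := by rw [hK]; exact htK'.mul_left k
    have hEK : E₁ K = E₁ k + E₁ K' := hE₁ _ _ (by omega) (by omega)
    have hWm : ∀ e ∈ W', e - E₁ k ∈ (W' ×ˢ range (B + 1)).image (fun p => p.1 - E₁ p.2) := by
      intro e he
      exact Finset.mem_image.mpr ⟨(e, k), Finset.mem_product.mpr ⟨he,
        Finset.mem_range.mpr (by omega)⟩, rfl⟩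
    -- the syndetic set of returns
    obtain ⟨q, m, hq1, hqR, hmR, hY⟩ := hR
      (fun n => ∀ e ∈ W', ψ z (e - E₁ k + E₁ (n * K)) = χ z (e - E₁ k))
      (by
        intro y hy
        obtain ⟨k₁, hk₁1, hk₁N, hk₁⟩ := hMR W' z (- E₁ k) (y * K)
          (Nat.mul_pos hy (by omega))
        refine ⟨k₁, hk₁1, hk₁N, ?_⟩
        intro e he
        have h1 := hk₁ e he
        have e1 : - E₁ k + e = e - E₁ k := by abel
        rw [e1] at h1
        rw [← h1]
        congr 2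
        ring_nf)
    have hqr : q ∈ range (R + 1) := Finset.mem_range.mpr (by omega)
    have hmr : m ∈ range (R + 1) := Finset.mem_range.mpr (by omega)
    have hKr : K ∈ range (t * (B * B) + 1) := Finset.mem_range.mpr (by omega)
    have hΘV : ∀ h ∈ V', Θ z q m K h ∈ Z ∪ VΘ := by
      intro h hh
      exact Finset.mem_union_right _ (Finset.mem_image.mpr ⟨(z, q, m, K, h),
        Finset.mem_product.mpr ⟨hz, Finset.mem_product.mpr ⟨hqr, Finset.mem_product.mpr ⟨hmr,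
          Finset.mem_product.mpr ⟨hKr, hh⟩⟩⟩⟩, rfl⟩)
    by_cases hcase : ∃ h ∈ V', ∃ e ∈ W', χ (Θ z q m K h) (e - E₁ k) = χ z (e - E₁ k)
    · obtain ⟨h, hh, e, he, hred⟩ := hcase
      obtain ⟨n, hn1, hnR, hnval, hnH⟩ := hY h.1 (Finset.mem_image.mpr ⟨h, hh, rfl⟩)
      have hnr : n ∈ range (R + 1) := Finset.mem_range.mpr (by omega)
      have hfF : f1 h q n ∈ F := Finset.mem_union_left _ (Finset.mem_image.mpr ⟨(h, q, n),
        Finset.mem_product.mpr ⟨hh, Finset.mem_product.mpr ⟨hqr, hnr⟩⟩, rfl⟩)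
      have hxred : χ (z + K • f1 h q n) (e - E₁ k) = χ z (e - E₁ k) := hlow _ hfF e he
      have hbd : n * K ≤ t * ((L' + 1) * ((R + 1) * (B * B + 1))) := by
        calc n * K ≤ R * (t * (B * B)) := Nat.mul_le_mul hnR hKB
          _ = t * (R * (B * B)) := by ring
          _ ≤ t * ((L' + 1) * ((R + 1) * (B * B + 1))) := by
            apply Nat.mul_le_mul_left
            calc R * (B * B) ≤ (R + 1) * (B * B + 1) :=
                  Nat.mul_le_mul (by omega) (by omega)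
              _ = 1 * ((R + 1) * (B * B + 1)) := by ring
              _ ≤ (L' + 1) * ((R + 1) * (B * B + 1)) := Nat.mul_le_mul_right _ (by omega)
      refine ⟨z + K • f1 h q n, e - E₁ k, n * K, by nlinarith, htK.mul_left n, hbd, ?_, ?_, ?_⟩
      · have e1 : e - E₁ k + E₁ (n * K) = e + E₁ n + E₁ K' := by
          rw [hE₁ n K (by omega) (by omega), hEK]
          abel
        have h2 := hhigh _ hfF (e + E₁ n) (Finset.mem_image.mpr ⟨(e, n),
          Finset.mem_product.mpr ⟨he, hnr⟩, rfl⟩)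
        have h3 := hnH e he
        rw [e1] at h3
        rw [e1, h2, h3, hxred]
      · rw [hxred, ← hred]
        congr 1
        change z + K • (gg h q - n • (E₂ n + v)) + (n * K) • (E₂ (n * K) + v) =
          z + ((q : ℤ) * h.1 + m) • (K • E₂ K) + K • gg h q
        rw [← hnval, natCast_zsmul, hE₂ n K (by omega) (by omega)]
        simp only [smul_add, smul_sub, smul_smul]
        rw [mul_comm K n]
        abel
      · intro f hf
        have hfF2 : f1 h q n + n • f ∈ F := Finset.mem_union_right _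
          (Finset.mem_image.mpr ⟨((h, q, n), f), Finset.mem_product.mpr
            ⟨Finset.mem_product.mpr ⟨hh, Finset.mem_product.mpr ⟨hqr, hnr⟩⟩, hf⟩, rfl⟩)
        have h2 := hlow _ hfF2 e he
        rw [hxred, ← h2]
        congr 1
        rw [smul_add K, smul_smul, mul_comm K n, add_assoc]
    · push Not at hcase
      obtain ⟨h, e, b', hb'2, _, hb'L, h1, h2, h3⟩ := hmain
        (fun h e => χ (Θ z q m K h) (e - E₁ k))
        (fun h e => ψ (Θ z q m K h) (e - E₁ k + E₁ (q * K)))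
        (by
          intro W g e b hb
          obtain ⟨k₁, hk₁1, hk₁N, hk₁⟩ := hMR W (Θ z q m K g) (e - E₁ k) (b * (q * K))
            (Nat.mul_pos hb (Nat.mul_pos hq1 (by omega)))
          refine ⟨k₁, hk₁1, hk₁N, ?_⟩
          intro w hw
          have h1 := hk₁ w hw
          have e0 : e + w - E₁ k = e - E₁ k + w := by abel
          have e1 : e + w + E₁ (b * k₁) - E₁ k + E₁ (q * K) =
              e - E₁ k + w + E₁ (b * (q * K) * k₁) := by
            have e2 : b * (q * K) * k₁ = (b * k₁) * (q * K) := by ring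
            rw [e2, hE₁ (b * k₁) (q * K) (Nat.mul_pos hb hk₁1).ne'
              (Nat.mul_pos hq1 (by omega)).ne']
            abel
          show ψ (Θ z q m K g) (e + w + E₁ (b * k₁) - E₁ k + E₁ (q * K)) =
            χ (Θ z q m K g) (e + w - E₁ k)
          rw [e1, e0]
          exact h1)
        (fun e => (S (e - E₁ k)).erase (χ z (e - E₁ k)))
        (by
          intro e he
          have h1 := hV z (Finset.mem_union_left _ hz) _ (hWm e he)
          have h2 := hS _ (hWm e he)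
          rw [Finset.card_erase_of_mem h1]
          omega)
        (by
          intro h hh e he
          exact Finset.mem_erase.mpr ⟨hcase h hh e he, hV _ (hΘV h hh) _ (hWm e he)⟩)
      have hb1 : 2 ≤ b' * (q * K) := by
        have : 1 ≤ q * K := Nat.mul_pos hq1 (by omega)
        nlinarith
      have hbd : b' * (q * K) ≤ t * ((L' + 1) * ((R + 1) * (B * B + 1))) := by
        calc b' * (q * K) ≤ L' * (R * (t * (B * B))) :=
              Nat.mul_le_mul (by omega) (Nat.mul_le_mul hqR hKB)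
          _ = t * (L' * (R * (B * B))) := by ring
          _ ≤ t * ((L' + 1) * ((R + 1) * (B * B + 1))) := by
            apply Nat.mul_le_mul_left
            exact Nat.mul_le_mul (by omega) (Nat.mul_le_mul (by omega) (by omega))
      refine ⟨Θ z q m K h, e - E₁ k, b' * (q * K), hb1, (htK.mul_left q).mul_left b', hbd,
        ?_, ?_, ?_⟩
      · have e1 : e - E₁ k + E₁ (b' * (q * K)) = e + E₁ b' - E₁ k + E₁ (q * K) := by
          rw [hE₁ b' (q * K) (by omega) (Nat.mul_pos hq1 (by omega)).ne']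
          abel
        rw [e1]
        exact h1
      · refine Eq.trans ?_ h2
        congr 1
        have e1 : (h + b' • (((0 : ℤ), (0 : ℤ), E₂ b') + ((1 : ℤ), (1 : ℤ), v))).1 =
            h.1 + b' := by simp
        have e2 : (h + b' • (((0 : ℤ), (0 : ℤ), E₂ b') + ((1 : ℤ), (1 : ℤ), v))).2.1 =
            h.2.1 + b' := by simp
        have e3 : (h + b' • (((0 : ℤ), (0 : ℤ), E₂ b') + ((1 : ℤ), (1 : ℤ), v))).2.2 =
            h.2.2 + b' • (E₂ b' + v) := by simp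
        change z + ((q : ℤ) * h.1 + m) • (K • E₂ K) + K • (q • (h.2.2 + h.2.1 • E₂ q)) +
          (b' * (q * K)) • (E₂ (b' * (q * K)) + v) =
          z + ((q : ℤ) * (h + b' • (((0 : ℤ), (0 : ℤ), E₂ b') + ((1 : ℤ), (1 : ℤ), v))).1 + m) •
            (K • E₂ K) + K • (q • ((h + b' • (((0 : ℤ), (0 : ℤ), E₂ b') +
              ((1 : ℤ), (1 : ℤ), v))).2.2 + (h + b' • (((0 : ℤ), (0 : ℤ), E₂ b') +
              ((1 : ℤ), (1 : ℤ), v))).2.1 • E₂ q))
        rw [e1, e2, e3, hE₂ b' (q * K) (by omega) (Nat.mul_pos hq1 (by omega)).ne',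
          hE₂ q K (by omega) (by omega)]
        have e4 : ((q : ℤ) * (h.1 + b') + m) • (K • E₂ K) =
            ((q : ℤ) * h.1 + m) • (K • E₂ K) + (q * b') • (K • E₂ K) := by
          rw [show (q : ℤ) * (h.1 + b') + m = ((q : ℤ) * h.1 + m) + ((q * b' : ℕ) : ℤ) by
            push_cast; ring, add_smul, natCast_zsmul]
        have e5 : (h.2.1 + (b' : ℤ)) • E₂ q = h.2.1 • E₂ q + b' • E₂ q := by
          rw [add_smul, natCast_zsmul]
        rw [e4, e5]
        simp only [smul_add, smul_smul]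
        have e6 : K * (q * b') = b' * (q * K) := by ring
        have e7 : q * b' * K = b' * (q * K) := by ring
        simp only [e6, e7]
        abel
      · intro f hf
        have h4 := h3 ((0 : ℤ), (0 : ℤ), f) (Finset.mem_image.mpr ⟨f, hf, rfl⟩)
        refine Eq.trans ?_ h4
        congr 1
        have e1 : (h + b' • (((0 : ℤ), (0 : ℤ), f) : ℤ × ℤ × G)).1 = h.1 := by simp
        have e2 : (h + b' • (((0 : ℤ), (0 : ℤ), f) : ℤ × ℤ × G)).2.1 = h.2.1 := by simp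
        have e3 : (h + b' • (((0 : ℤ), (0 : ℤ), f) : ℤ × ℤ × G)).2.2 = h.2.2 + b' • f := by simp
        change z + ((q : ℤ) * h.1 + m) • (K • E₂ K) + K • (q • (h.2.2 + h.2.1 • E₂ q)) +
          (b' * (q * K)) • f =
          z + ((q : ℤ) * (h + b' • (((0 : ℤ), (0 : ℤ), f) : ℤ × ℤ × G)).1 + m) •
            (K • E₂ K) + K • (q • ((h + b' • (((0 : ℤ), (0 : ℤ), f) : ℤ × ℤ × G)).2.2 +
              (h + b' • (((0 : ℤ), (0 : ℤ), f) : ℤ × ℤ × G)).2.1 • E₂ q))
        rw [e1, e2, e3]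
        simp only [smul_add, smul_smul]
        have e6 : K * (q * b') = b' * (q * K) := by ring
        simp only [e6]
        abel

end Pool.Agent.L5helper91.EB
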