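import Pool.Agent.L5helper91.EB.StarT

set_option autoImplicit false

namespace Pool.Agent.L5helper91.EB

open Finset

theorem pattern_qpT (κ : Type) [Finite κ] (c : QP → κ)
    (hur : ∀ W : Finset QP, ∃ L : Finset QP, ∀ x Q : QP, ∃ a ∈ L, ∀ w ∈ W,
      c (w + a + Q) = c (w + x)) (F₀ : Finset QP) :
    ∃ L₀ : ℕ, ∀ t : ℕ, 1 ≤ t → ∃ (x : QP) (b : ℕ), 2 ≤ b ∧ t ∣ b ∧ b ≤ t * L₀ ∧
      c (x + EE b) = c x ∧ c (x + b • EE b) = c x ∧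
      ∀ f ∈ F₀, c (x + b • f) = c x := by
  classical
  have := Fintype.ofFinite κ
  choose L hL using hur
  have hden := fun W => denom (L W)
  choose D hDpos hD using hden
  let NN : Finset QP → ℕ := fun W => ∑ a ∈ L W, ⌊(D W : ℚ) * val a⌋₊
  obtain ⟨L₀, hstar⟩ := starT κ QP EE EE_CA NN (Fintype.card κ) QP EE EE_CA 0 F₀
  refine ⟨L₀, fun t ht => ?_⟩
  obtain ⟨V, W, hstar⟩ := hstar t ht
  have hMR : MR EE NN (fun g e : QP => c (g + e)) (fun g e : QP => c (g + e)) := by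
    intro W g e b hb
    obtain ⟨a, haL, ha⟩ := hL W (g + e) (g + e + EE b + EE (D W))
    obtain ⟨k, hk1, hk⟩ := hD W a haL
    refine ⟨k, hk1, ?_, ?_⟩
    · have h1 : ⌊(D W : ℚ) * val a⌋₊ ≤ NN W :=
        Finset.single_le_sum (f := fun a : QP => ⌊(D W : ℚ) * val a⌋₊)
          (fun _ _ => Nat.zero_le _) haL
      rw [hk, Nat.floor_natCast] at h1
      exact h1
    · intro w hw
      have hEk : EE k = EE (D W) + a := by
        apply val_inj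
        rw [val_add, val_EE _ (by omega), val_EE _ (hDpos W), hk]
      have h1 := ha w hw
      have e1 : g + (e + w + EE (b * k)) = w + a + (g + e + EE b + EE (D W)) := by
        rw [EE_CA b k (by omega) (by omega), hEk]
        abel
      have e2 : g + (e + w) = w + (g + e) := by abel
      show c (g + (e + w + EE (b * k))) = c (g + (e + w))
      rw [e1, e2]
      exact h1
  obtain ⟨g, e, b, hb, htb, hbL, h1, h2, h3⟩ := hstar _ _ hMR (fun _ => Finset.univ)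
    (fun _ _ => le_of_eq Finset.card_univ) (fun _ _ _ _ => Finset.mem_univ _)
  refine ⟨g + e, b, hb, htb, hbL, ?_, ?_, ?_⟩
  · rw [← h1, add_assoc]
  · rw [← h2]
    congr 1
    rw [add_zero]
    abel
  · intro f hf
    rw [← h3 f hf]
    congr 1
    abel

theorem exps4T (κ : Type) [Finite κ] (J : ℕ) (C : ℕ → κ) :
    ∃ L : ℕ, ∀ t : ℕ, 1 ≤ t → ∃ k b : ℕ, 1 ≤ k ∧ 2 ≤ b ∧ t ∣ b ∧ b ≤ t * L ∧
      C (k * b) = C k ∧ C (k * b ^ b) = C k ∧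
      ∀ j : ℕ, 1 ≤ j → j ≤ J → C (k * j ^ b) = C k := by
  classical
  obtain ⟨c₁, hc₁⟩ := limit_colouring κ C
  obtain ⟨c, hc, hur⟩ := exists_ur κ QP c₁
  obtain ⟨L, hL⟩ := pattern_qpT κ c hur ((Finset.Icc 1 J).image EE)
  refine ⟨L, fun t ht => ?_⟩
  obtain ⟨x, b, hb2, htb, hbL, h0, h1, h2⟩ := hL t ht
  let P : Finset QP := insert x (insert (x + EE b) (insert (x + b • EE b)
    ((Finset.Icc 1 J).image (fun j => x + b • EE j))))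
  obtain ⟨a, ha⟩ := hc P
  obtain ⟨n, hn1, hn⟩ := hc₁ (P.image (fun p => p + a))
  have hmem : ∀ p ∈ P, ∃ k : ℕ, 1 ≤ k ∧ (n : ℚ) * val (p + a) = k ∧ C k = c p := by
    intro p hp
    obtain ⟨k, hk1, hk, hkC⟩ := hn (p + a) (Finset.mem_image.mpr ⟨p, hp, rfl⟩)
    exact ⟨k, hk1, hk, hkC.trans (ha p hp).symm⟩
  obtain ⟨k, hk1, hk, hkC⟩ := hmem x (by simp [P])
  refine ⟨k, b, hk1, hb2, htb, hbL, ?_, ?_, ?_⟩
  · obtain ⟨k', _, hk', hkC'⟩ := hmem (x + EE b) (by simp [P])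
    have e : k' = k * b := by
      have e1 : (n : ℚ) * val (x + EE b + a) = ((k * b : ℕ) : ℚ) := by
        rw [val_add, val_add, val_EE _ (by omega)]
        rw [val_add] at hk
        push_cast
        rw [← hk]
        ring
      rw [e1] at hk'
      exact_mod_cast hk'.symm
    rw [← e, hkC', hkC, h0]
  · obtain ⟨k', _, hk', hkC'⟩ := hmem (x + b • EE b) (by simp [P])
    have e : k' = k * b ^ b := by
      have e1 : (n : ℚ) * val (x + b • EE b + a) = ((k * b ^ b : ℕ) : ℚ) := by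
        rw [val_add, val_add, val_nsmul, val_EE _ (by omega)]
        rw [val_add] at hk
        push_cast
        rw [← hk]
        ring
      rw [e1] at hk'
      exact_mod_cast hk'.symm
    rw [← e, hkC', hkC, h1]
  · intro j hj hJ
    have hjm : x + b • EE j ∈ P := Finset.mem_insert_of_mem (Finset.mem_insert_of_mem
      (Finset.mem_insert_of_mem (Finset.mem_image.mpr ⟨j, Finset.mem_Icc.mpr ⟨hj, hJ⟩, rfl⟩)))
    obtain ⟨k', _, hk', hkC'⟩ := hmem (x + b • EE j) hjm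
    have h3 := h2 (EE j) (Finset.mem_image.mpr ⟨j, Finset.mem_Icc.mpr ⟨hj, hJ⟩, rfl⟩)
    have e : k' = k * j ^ b := by
      have e1 : (n : ℚ) * val (x + b • EE j + a) = ((k * j ^ b : ℕ) : ℚ) := by
        rw [val_add, val_add, val_nsmul, val_EE _ (by omega)]
        rw [val_add] at hk
        push_cast
        rw [← hk]
        ring
      rw [e1] at hk'
      exact_mod_cast hk'.symm
    rw [← e, hkC', hkC, h3]

/-- a pointwise limit of a sequence of colourings -/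
theorem seq_limit (κ : Type) [Finite κ] (C : ℕ → ℕ → κ) :
    ∃ C₀ : ℕ → κ, ∀ (F : Finset ℕ) (N₀ : ℕ), ∃ N : ℕ, N₀ ≤ N ∧ ∀ m ∈ F, C N m = C₀ m := by
  classical
  have h : ∀ m : ℕ, ∃ v : κ, ∀ᶠ N in (Filter.hyperfilter ℕ : Filter ℕ), C N m = v := by
    intro m
    obtain ⟨v, hv⟩ := Ultrafilter.eq_pure_of_finite ((Filter.hyperfilter ℕ).map (fun N => C N m))
    refine ⟨v, ?_⟩
    have h1 : {v} ∈ (Filter.hyperfilter ℕ).map (fun N => C N m) := by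
      rw [hv]
      exact Ultrafilter.mem_pure.mpr rfl
    exact h1
  choose v hv using h
  refine ⟨v, fun F N₀ => ?_⟩
  have h2 : ∀ᶠ N in (Filter.hyperfilter ℕ : Filter ℕ), ∀ m ∈ F, C N m = v m :=
    (Filter.eventually_all_finset F).mpr (fun m _ => hv m)
  have h3 : ∀ᶠ N in (Filter.hyperfilter ℕ : Filter ℕ), N₀ ≤ N := by
    exact Nat.hyperfilter_le_atTop (Filter.eventually_ge_atTop N₀)
  obtain ⟨N, hN1, hN2⟩ := (h2.and h3).exists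
  exact ⟨N, hN2, hN1⟩

/-- the general criterion -/
theorem critF (κ : Type) [Finite κ] [DecidableEq κ] (c : ℕ → κ) (I : Type) [Finite I]
    (P : I → Set ℕ) (hP : ∀ σ, ∀ a ∈ P σ, ∀ n : ℕ, 1 ≤ n → a ^ n ∈ P σ) (S : I → Finset κ)
    (h1 : ∀ σ, ∀ M : ℕ, ∃ a ∈ P σ, ∀ n : ℕ, 1 ≤ n → n ≤ M → c (a ^ n) ∈ S σ)
    (h2 : ∀ σ, ∃ M : ℕ, ∀ a ∈ P σ, (∀ n : ℕ, 1 ≤ n → n ≤ M → c (a ^ n) ∈ S σ) →
      ∀ i ∈ S σ, ∃ n : ℕ, 1 ≤ n ∧ n ≤ M ∧ c (a ^ n) = i)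
    (h3 : ∀ L : ℕ, ∃ t : ℕ, 1 ≤ t ∧ ∀ l : ℕ, 1 ≤ l → l ≤ L → ∃ σ, c (l * t) ∈ S σ) (J : ℕ) :
    ∃ σ, ∃ a ∈ P σ, ∃ b : ℕ, 1 < b ∧ c b = c a ∧ c (a ^ b) = c a ∧ c (a ^ (b ^ b)) = c a ∧
      ∀ j : ℕ, 1 ≤ j → j ≤ J → c (a ^ (j ^ b)) = c a := by
  classical
  have := Fintype.ofFinite I
  choose M₁ hM₁ using h2
  set M : ℕ := ∑ σ, M₁ σ with hMdef
  have hMle : ∀ σ, M₁ σ ≤ M := fun σ => Finset.single_le_sum (fun _ _ => Nat.zero_le _)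
    (Finset.mem_univ σ)
  choose G hGP hG using h1
  obtain ⟨C₀, hC₀⟩ := seq_limit (I → Fin (M + 1) → κ)
    (fun N m => fun σ => fun n : Fin (M + 1) => c (G σ N ^ (m * (n : ℕ))))
  obtain ⟨L, hL⟩ := exps4T (I → Fin (M + 1) → κ) J C₀
  obtain ⟨t, ht, hS⟩ := h3 L
  obtain ⟨k, b, hk, hb, ⟨l, hl⟩, hbL, e0, e1, e2⟩ := hL t ht
  obtain ⟨σ, hcb⟩ : ∃ σ, c b ∈ S σ := by
    rw [hl, mul_comm]
    apply hS l
    · rcases Nat.eq_zero_or_pos l with h | h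
      · rw [h] at hl; omega
      · exact h
    · rw [hl] at hbL
      exact Nat.le_of_mul_le_mul_left hbL (by omega)
  obtain ⟨N, hN, hNC⟩ := hC₀ (insert k (insert (k * b) (insert (k * b ^ b)
    ((Finset.Icc 1 J).image (fun j => k * j ^ b))))) (k * M)
  have m0 := hNC k (by simp)
  have m1 := hNC (k * b) (by simp)
  have m2 := hNC (k * b ^ b) (by simp)
  have hpP : G σ N ^ k ∈ P σ := hP _ _ (hGP σ N) k hk
  obtain ⟨n, hn1, hnM, hn⟩ := hM₁ σ (G σ N ^ k) hpP (by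
    intro n hn1 hnM
    rw [← pow_mul]
    exact hG σ N (k * n) (Nat.mul_pos hk hn1)
      (le_trans (Nat.mul_le_mul_left k (le_trans hnM (hMle σ))) hN)) (c b) hcb
  have hnL : n < M + 1 := by
    have := hMle σ
    omega
  refine ⟨σ, (G σ N ^ k) ^ n, hP _ _ hpP n hn1, b, by omega, hn.symm, ?_, ?_, ?_⟩
  · have h3 := congrFun (congrFun (m1.trans (e0.trans m0.symm)) σ) ⟨n, hnL⟩
    simp only at h3
    rw [← pow_mul (G σ N) k n, ← pow_mul, ← h3]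
    congr 2
    ring
  · have h3 := congrFun (congrFun (m2.trans (e1.trans m0.symm)) σ) ⟨n, hnL⟩
    simp only at h3
    rw [← pow_mul (G σ N) k n, ← pow_mul, ← h3]
    congr 2
    ring
  · intro j hj hJ
    have mj := hNC (k * j ^ b) (Finset.mem_insert_of_mem (Finset.mem_insert_of_mem
      (Finset.mem_insert_of_mem (Finset.mem_image.mpr ⟨j, Finset.mem_Icc.mpr ⟨hj, hJ⟩, rfl⟩))))
    have h3 := congrFun (congrFun (mj.trans ((e2 j hj hJ).trans m0.symm)) σ) ⟨n, hnL⟩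
    simp only at h3
    rw [← pow_mul (G σ N) k n, ← pow_mul, ← h3]
    congr 2
    ring

/-- a minimal set of colours -/
theorem exists_min (κ : Type) [Finite κ] [DecidableEq κ] (c : ℕ → κ) (P : Set ℕ)
    (hne : P.Nonempty) :
    ∃ S : Finset κ, (∀ M : ℕ, ∃ a ∈ P, ∀ n : ℕ, 1 ≤ n → n ≤ M → c (a ^ n) ∈ S) ∧
      ∃ M : ℕ, ∀ a ∈ P, (∀ n : ℕ, 1 ≤ n → n ≤ M → c (a ^ n) ∈ S) →
        ∀ i ∈ S, ∃ n : ℕ, 1 ≤ n ∧ n ≤ M ∧ c (a ^ n) = i := by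
  classical
  have := Fintype.ofFinite κ
  have hex : ∃ s : ℕ, ∃ S : Finset κ, S.card = s ∧
      (∀ M : ℕ, ∃ a ∈ P, ∀ n : ℕ, 1 ≤ n → n ≤ M → c (a ^ n) ∈ S) := by
    obtain ⟨a, ha⟩ := hne
    exact ⟨_, Finset.univ, rfl, fun M => ⟨a, ha, fun n _ _ => Finset.mem_univ _⟩⟩
  obtain ⟨S, hcard, hS⟩ := Nat.find_spec hex
  refine ⟨S, hS, ?_⟩
  by_contra hno
  push Not at hno
  choose G hGP hG i hiS hi using hno
  -- some colour is missed for arbitrarily large M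
  have hpig : ∃ i₀ ∈ S, ∀ M₀ : ℕ, ∃ M : ℕ, M₀ ≤ M ∧ i M = i₀ := by
    by_contra hp
    push Not at hp
    choose! B hB using hp
    have h1 := hB (i (∑ j ∈ S, B j)) (hiS _) (∑ j ∈ S, B j)
      (Finset.single_le_sum (f := B) (fun _ _ => Nat.zero_le _) (hiS _))
    exact h1 rfl
  obtain ⟨i₀, hi₀, hinf⟩ := hpig
  have hlt : (S.erase i₀).card < Nat.find hex := by
    rw [← hcard]
    exact Finset.card_erase_lt_of_mem hi₀
  apply Nat.find_min hex hlt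
  refine ⟨S.erase i₀, rfl, ?_⟩
  intro M₀
  obtain ⟨M, hM, hMi⟩ := hinf M₀
  refine ⟨G M, hGP M, fun n hn1 hn => ?_⟩
  refine Finset.mem_erase.mpr ⟨?_, hG M n hn1 (by omega)⟩
  rw [← hMi]
  exact hi M n hn1 (by omega)

/-- the case of one colour -/
theorem oneCol (κ : Type) (c : ℕ → κ) (P : Set ℕ) (h1P : ∀ a ∈ P, 1 < a) (S : Finset κ)
    (hS1 : ∀ M : ℕ, ∃ a ∈ P, ∀ n : ℕ, 1 ≤ n → n ≤ M → c (a ^ n) ∈ S) (hcard : S.card ≤ 1)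
    (J : ℕ) :
    ∃ a ∈ P, ∃ b : ℕ, 1 < b ∧ c b = c a ∧ c (a ^ b) = c a ∧ c (a ^ (b ^ b)) = c a ∧
      ∀ j : ℕ, 1 ≤ j → j ≤ J → c (a ^ (j ^ b)) = c a := by
  obtain ⟨b, hbP, hb⟩ := hS1 1
  have hb1 := hb 1 le_rfl le_rfl
  rw [pow_one] at hb1
  have hall : ∀ i ∈ S, i = c b := fun i hi => Finset.card_le_one.mp hcard i hi _ hb1
  obtain ⟨a, haP, ha⟩ := hS1 (b ^ b + J ^ b + b + 1)
  have hca := hall _ (ha 1 le_rfl (by omega))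
  rw [pow_one] at hca
  have hb2 := h1P b hbP
  refine ⟨a, haP, b, hb2, hca.symm, ?_, ?_, ?_⟩
  · rw [hca]
    exact hall _ (ha _ (by omega) (by omega))
  · rw [hca]
    exact hall _ (ha _ (Nat.one_le_pow _ _ (by omega)) (by omega))
  · intro j hj hJ
    rw [hca]
    have : j ^ b ≤ J ^ b := Nat.pow_le_pow_left hJ b
    exact hall _ (ha _ (Nat.one_le_pow _ _ (by omega)) (by omega))

/-- structure of a counterexample to Q1 -/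
theorem dichotomy (κ : Type) [Finite κ] [DecidableEq κ] (c : ℕ → κ) (P : Set ℕ)
    (hne : P.Nonempty) (h1P : ∀ a ∈ P, 1 < a)
    (hP : ∀ a ∈ P, ∀ n : ℕ, 1 ≤ n → a ^ n ∈ P) (J : ℕ) :
    (∃ a ∈ P, ∃ b : ℕ, 1 < b ∧ c b = c a ∧ c (a ^ b) = c a ∧ c (a ^ (b ^ b)) = c a ∧
      ∀ j : ℕ, 1 ≤ j → j ≤ J → c (a ^ (j ^ b)) = c a) ∨
    ∃ T : Finset κ, 2 ≤ T.card ∧
      (∃ L : ℕ, ∀ t : ℕ, 1 ≤ t → ∃ l : ℕ, 1 ≤ l ∧ l ≤ L ∧ c (l * t) ∉ T) ∧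
      (∀ g ∈ P, ∀ M : ℕ, ∃ k : ℕ, 1 ≤ k ∧ ∀ n : ℕ, 1 ≤ n → n ≤ M → c (g ^ (k * n)) ∈ T) := by
  classical
  have := Fintype.ofFinite κ
  by_cases hpat : ∃ a ∈ P, ∃ b : ℕ, 1 < b ∧ c b = c a ∧ c (a ^ b) = c a ∧
      c (a ^ (b ^ b)) = c a ∧ ∀ j : ℕ, 1 ≤ j → j ≤ J → c (a ^ (j ^ b)) = c a
  · exact Or.inl hpat
  refine Or.inr ?_
  let Q : ℕ → Set ℕ := fun g => {x | ∃ k : ℕ, 1 ≤ k ∧ x = g ^ k}
  have hQne : ∀ g, (Q g).Nonempty := fun g => ⟨g ^ 1, 1, le_rfl, rfl⟩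
  have hQP : ∀ g ∈ P, ∀ x ∈ Q g, x ∈ P := by
    rintro g hg x ⟨k, hk, rfl⟩
    exact hP g hg k hk
  have hQpow : ∀ g, ∀ a ∈ Q g, ∀ n : ℕ, 1 ≤ n → a ^ n ∈ Q g := by
    rintro g a ⟨k, hk, rfl⟩ n hn
    exact ⟨k * n, Nat.mul_pos hk hn, (pow_mul g k n).symm⟩
  choose S hS1 hS2 using fun g => exists_min κ c (Q g) (hQne g)
  refine ⟨Finset.univ.filter (fun i => ∃ g ∈ P, i ∈ S g), ?_, ?_, ?_⟩
  · obtain ⟨g, hg⟩ := hne
    by_contra hc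
    push Not at hc
    apply hpat
    have hsub : S g ⊆ Finset.univ.filter (fun i => ∃ g ∈ P, i ∈ S g) := by
      intro i hi
      exact Finset.mem_filter.mpr ⟨Finset.mem_univ _, g, hg, hi⟩
    have hle := Finset.card_le_card hsub
    obtain ⟨a, haQ, b, hb⟩ := oneCol κ c (Q g) (fun a ha => h1P a (hQP g hg a ha)) (S g)
      (hS1 g) (by omega) J
    exact ⟨a, hQP g hg a haQ, b, hb⟩
  · by_contra hno
    push Not at hno
    apply hpat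
    have hT : ∀ σ : {i : κ // ∃ g ∈ P, i ∈ S g}, ∃ g ∈ P, (σ : κ) ∈ S g := fun σ => σ.2
    choose γ hγP hγ using hT
    obtain ⟨σ, a, haQ, b, hb⟩ := critF κ c {i : κ // ∃ g ∈ P, i ∈ S g} (fun σ => Q (γ σ))
      (fun σ => hQpow (γ σ)) (fun σ => S (γ σ)) (fun σ => hS1 (γ σ)) (fun σ => hS2 (γ σ))
      (by
        intro L
        obtain ⟨t, ht, hl⟩ := hno L
        refine ⟨t, ht, fun l h1 h2 => ?_⟩
        have h3 := hl l h1 h2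
        have h4 := (Finset.mem_filter.mp h3).2
        exact ⟨⟨_, h4⟩, hγ ⟨_, h4⟩⟩) J
    exact ⟨a, hQP _ (hγP σ) a haQ, b, hb⟩
  · intro g hg M
    obtain ⟨a, ⟨k, hk, rfl⟩, ha⟩ := hS1 g M
    refine ⟨k, hk, fun n hn1 hn => ?_⟩
    refine Finset.mem_filter.mpr ⟨Finset.mem_univ _, g, hg, ?_⟩
    rw [pow_mul]
    exact ha n hn1 hn

/-- Q1 when any two colour classes together are multiplicatively thick -/
theorem thickPairs (κ : Type) [Finite κ] [DecidableEq κ] (c : ℕ → κ) (P : Set ℕ)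
    (hne : P.Nonempty) (h1P : ∀ a ∈ P, 1 < a)
    (hP : ∀ a ∈ P, ∀ n : ℕ, 1 ≤ n → a ^ n ∈ P)
    (hth : ∀ i j : κ, i ≠ j → ∀ L : ℕ, ∃ t : ℕ, 1 ≤ t ∧
      ∀ l : ℕ, 1 ≤ l → l ≤ L → c (l * t) = i ∨ c (l * t) = j) (J : ℕ) :
    ∃ a ∈ P, ∃ b : ℕ, 1 < b ∧ c b = c a ∧ c (a ^ b) = c a ∧ c (a ^ (b ^ b)) = c a ∧
      ∀ j : ℕ, 1 ≤ j → j ≤ J → c (a ^ (j ^ b)) = c a := by
  rcases dichotomy κ c P hne h1P hP J with h | ⟨T, hT, ⟨L, hL⟩, _⟩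
  · exact h
  exfalso
  obtain ⟨i, hi, j, hj, hij⟩ := Finset.one_lt_card.mp hT
  obtain ⟨t, ht, hl⟩ := hth i j hij L
  obtain ⟨l, h1, h2, h3⟩ := hL t ht
  rcases hl l h1 h2 with h | h
  · exact h3 (h ▸ hi)
  · exact h3 (h ▸ hj)

/-- Q1 when the union of the persistent colour classes is multiplicatively thick -/
theorem thickPersist (κ : Type) [Finite κ] [DecidableEq κ] (c : ℕ → κ) (P : Set ℕ)
    (hne : P.Nonempty) (h1P : ∀ a ∈ P, 1 < a)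
    (hP : ∀ a ∈ P, ∀ n : ℕ, 1 ≤ n → a ^ n ∈ P)
    (hth : ∀ L : ℕ, ∃ t : ℕ, 1 ≤ t ∧ ∀ l : ℕ, 1 ≤ l → l ≤ L →
      ∃ g ∈ P, ∃ M : ℕ, ∀ k : ℕ, 1 ≤ k → ∃ n : ℕ, 1 ≤ n ∧ n ≤ M ∧ c (g ^ (k * n)) = c (l * t))
    (J : ℕ) :
    ∃ a ∈ P, ∃ b : ℕ, 1 < b ∧ c b = c a ∧ c (a ^ b) = c a ∧ c (a ^ (b ^ b)) = c a ∧
      ∀ j : ℕ, 1 ≤ j → j ≤ J → c (a ^ (j ^ b)) = c a := by
  rcases dichotomy κ c P hne h1P hP J with h | ⟨T, hT, ⟨L, hL⟩, hT2⟩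
  · exact h
  exfalso
  obtain ⟨t, ht, hl⟩ := hth L
  obtain ⟨l, h1, h2, h3⟩ := hL t ht
  obtain ⟨g, hg, M, hM⟩ := hl l h1 h2
  obtain ⟨k, hk, hk2⟩ := hT2 g hg M
  obtain ⟨n, hn1, hn2, hn⟩ := hM k hk
  exact h3 (hn ▸ hk2 n hn1 hn2)

end Pool.Agent.L5helper91.EB
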