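import Pool.Agent.L5helper91.EB.Ret

set_option autoImplicit false

namespace Pool.Agent.L5helper91.EB

open Finset

/-- the pattern `x + l E K` (`l ≤ 2`), `x + l E K + K f` (`l ≤ 1`), with bounds -/
def Pat2 {κ A : Type} [AddCommGroup A] (E : ℕ → A) (F V : Finset A) (B : ℕ) (C : A → κ) : Prop :=
  ∃ x ∈ V, ∃ K : ℕ, 2 ≤ K ∧ K ≤ B ∧ C (x + E K) = C x ∧ C (x + E K + E K) = C x ∧
    (∀ f ∈ F, C (x + K • f) = C x) ∧ (∀ f ∈ F, C (x + E K + K • f) = C x)

theorem focus2 (κ : Type) [Finite κ] (A : Type) [AddCommGroup A] (E : ℕ → A) (hE : CA E)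
    (F : Finset A) (s : ℕ) : ∃ (V : Finset A) (B : ℕ), ∀ C : A → κ, Pat2 E F V B C ∨
      ∃ w ∈ V, ∃ P : Finset κ, P.card = s ∧ ∀ p ∈ P, ∃ x ∈ V, ∃ b : ℕ, 2 ≤ b ∧ b ≤ B ∧
        x + E b ∈ V ∧ x + E b + E b = w ∧ C x = p ∧ C (x + E b) = p ∧
        (∀ f ∈ F, C (x + b • f) = p) ∧ (∀ f ∈ F, C (x + E b + b • f) = p) := by
  classical
  induction s with
  | zero =>
    refine ⟨{0}, 0, fun C => Or.inr ⟨0, by simp, ∅, rfl, by simp⟩⟩
  | succ s ih =>
    obtain ⟨V, B, hVB⟩ := ih
    let F₁ : Finset A := (range (B + 1) ×ˢ F).image (fun p => p.1 • p.2) ∪ F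
    obtain ⟨V₁, B₁, hP1⟩ := P1 (V → κ) A E hE F₁
    let V' : Finset A := (V₁ ×ˢ V).image (fun p => p.1 + p.2) ∪
      ((V₁ ×ˢ (V ×ˢ range (B₁ + 1))).image (fun p => p.1 + p.2.1 + E p.2.2) ∪
      (V₁ ×ˢ (V ×ˢ range (B₁ + 1))).image (fun p => p.1 + p.2.1 + E p.2.2 + E p.2.2))
    refine ⟨V', (B + 1) * (B₁ + 1), ?_⟩
    intro C
    obtain ⟨z, hz, K, hK2, hKB, h1, h2, h3⟩ := hP1 (fun u => fun w : V => C (u + w))
    have hKr : K ∈ range (B₁ + 1) := Finset.mem_range.mpr (by omega)
    have hF₁1 : ∀ f ∈ F, f ∈ F₁ := fun f hf => Finset.mem_union_right _ hf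
    have hF₁b : ∀ b : ℕ, b ≤ B → ∀ f ∈ F, b • f ∈ F₁ := by
      intro b hb f hf
      exact Finset.mem_union_left _ (Finset.mem_image.mpr ⟨(b, f),
        Finset.mem_product.mpr ⟨Finset.mem_range.mpr (by omega), hf⟩, rfl⟩)
    have g1 : ∀ w ∈ V, C (z + w + E K) = C (z + w) := by
      intro w hw
      have := congrFun h1 ⟨w, hw⟩
      simp only at this
      rw [← this]
      congr 1
      abel
    have g2 : ∀ w ∈ V, ∀ f ∈ F₁, C (z + w + K • f) = C (z + w) := by
      intro w hw f hf
      have := congrFun (h2 f hf) ⟨w, hw⟩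
      simp only at this
      rw [← this]
      congr 1
      abel
    have g3 : ∀ w ∈ V, ∀ f ∈ F₁, C (z + w + E K + K • f) = C (z + w) := by
      intro w hw f hf
      have h4 := congrFun (h3 f hf) ⟨w, hw⟩
      have h5 := congrFun h1 ⟨w, hw⟩
      simp only at h4 h5
      rw [← h5, ← h4]
      congr 1
      abel
    have m0 : ∀ w ∈ V, z + w ∈ V' := fun w hw => Finset.mem_union_left _
      (Finset.mem_image.mpr ⟨(z, w), Finset.mem_product.mpr ⟨hz, hw⟩, rfl⟩)
    have m1 : ∀ w ∈ V, z + w + E K ∈ V' := fun w hw => Finset.mem_union_right _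
      (Finset.mem_union_left _ (Finset.mem_image.mpr ⟨(z, w, K), Finset.mem_product.mpr ⟨hz,
        Finset.mem_product.mpr ⟨hw, hKr⟩⟩, rfl⟩))
    have m2 : ∀ w ∈ V, z + w + E K + E K ∈ V' := fun w hw => Finset.mem_union_right _
      (Finset.mem_union_right _ (Finset.mem_image.mpr ⟨(z, w, K), Finset.mem_product.mpr ⟨hz,
        Finset.mem_product.mpr ⟨hw, hKr⟩⟩, rfl⟩))
    have htrans : ∀ x ∈ V, ∀ b : ℕ, 2 ≤ b → b ≤ B →
        C (z + (x + E b)) = C (z + x) → C (z + (x + E b + E b)) = C (z + x) →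
        (∀ f ∈ F, C (z + (x + b • f)) = C (z + x)) →
        (∀ f ∈ F, C (z + (x + E b + b • f)) = C (z + x)) →
        Pat2 E F V' ((B + 1) * (B₁ + 1)) C := by
      intro x hx b hb2 hbB k1 k2 k3 k4
      refine ⟨z + x, m0 x hx, b, hb2, by nlinarith, ?_, ?_, ?_, ?_⟩
      · rw [← k1, add_assoc]
      · rw [← k2]
        congr 1
        abel
      · intro f hf
        rw [← k3 f hf, add_assoc]
      · intro f hf
        rw [← k4 f hf]
        congr 1
        abel
    rcases hVB (fun u => C (z + u)) with hL | hR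
    · left
      obtain ⟨x, hx, b, hb2, hbB, k1, k2, k3, k4⟩ := hL
      exact htrans x hx b hb2 hbB k1 k2 k3 k4
    · obtain ⟨w, hw, P, hP, hsp⟩ := hR
      by_cases hwP : C (z + w) ∈ P
      · left
        obtain ⟨x, hx, b, hb2, hbB, hxV, hxw, k0, k1, k2, k3⟩ := hsp _ hwP
        subst hxw
        exact htrans x hx b hb2 hbB (k1.trans k0.symm) k0.symm
          (fun f hf => (k2 f hf).trans k0.symm) (fun f hf => (k3 f hf).trans k0.symm)
      · right
        refine ⟨z + w + E K + E K, m2 w hw, insert (C (z + w)) P, ?_, ?_⟩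
        · rw [Finset.card_insert_of_notMem hwP, hP]
        · intro p hp
          rcases Finset.mem_insert.mp hp with rfl | hp
          · exact ⟨z + w, m0 w hw, K, hK2, by nlinarith, m1 w hw, rfl, rfl, g1 w hw,
              fun f hf => g2 w hw f (hF₁1 f hf), fun f hf => g3 w hw f (hF₁1 f hf)⟩
          · obtain ⟨x, hx, b, hb2, hbB, hxV, hxw, k0, k1, k2, k3⟩ := hsp p hp
            have hEb : E (b * K) = E b + E K := hE _ _ (by omega) (by omega)
            refine ⟨z + x, m0 x hx, b * K, by nlinarith, ?_, ?_, ?_, k0, ?_, ?_, ?_⟩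
            · calc b * K ≤ B * B₁ := Nat.mul_le_mul hbB hKB
                _ ≤ (B + 1) * (B₁ + 1) := by nlinarith
            · have e : z + x + E (b * K) = z + (x + E b) + E K := by
                rw [hEb]
                abel
              rw [e]
              exact m1 _ hxV
            · rw [hEb, ← hxw]
              abel
            · have e : z + x + E (b * K) = z + (x + E b) + E K := by
                rw [hEb]
                abel
              rw [e, g1 _ hxV]
              exact k1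
            · intro f hf
              have h4 := g2 x hx _ (hF₁b b hbB f hf)
              rw [smul_smul, mul_comm] at h4
              rw [h4]
              exact k0
            · intro f hf
              have h4 := g3 _ hxV _ (hF₁b b hbB f hf)
              rw [smul_smul, mul_comm] at h4
              have e : z + x + E (b * K) + (b * K) • f = z + (x + E b) + E K + (b * K) • f := by
                rw [hEb]
                abel
              rw [e, h4]
              exact k1

theorem P2 (κ : Type) [Finite κ] (A : Type) [AddCommGroup A] (E : ℕ → A) (hE : CA E)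
    (F : Finset A) : ∃ (V : Finset A) (B : ℕ), ∀ C : A → κ, Pat2 E F V B C := by
  classical
  have := Fintype.ofFinite κ
  obtain ⟨V, B, h⟩ := focus2 κ A E hE F (Fintype.card κ)
  refine ⟨V, B, fun C => ?_⟩
  rcases h C with h | ⟨w, hw, P, hP, hsp⟩
  · exact h
  · have hPu : P = Finset.univ := Finset.eq_univ_of_card P hP
    obtain ⟨x, hx, b, hb2, hbB, hxV, hxw, k0, k1, k2, k3⟩ := hsp (C w)
      (by rw [hPu]; exact Finset.mem_univ _)
    subst hxw
    exact ⟨x, hx, b, hb2, hbB, k1.trans k0.symm, k0.symm, fun f hf => (k2 f hf).trans k0.symm,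
      fun f hf => (k3 f hf).trans k0.symm⟩

end Pool.Agent.L5helper91.EB
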