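import Pool.Agent.L5helper91.EB.Pair

set_option autoImplicit false

namespace Pool.Agent.L5helper91.EB

open Finset

/-- positive rationals, written additively -/
abbrev QP : Type := Additive {q : ℚ // 0 < q}

def val (q : QP) : ℚ := (Additive.toMul q).1

lemma val_pos (q : QP) : 0 < val q := (Additive.toMul q).2

lemma val_add (p q : QP) : val (p + q) = val p * val q := rfl

lemma val_nsmul (n : ℕ) (q : QP) : val (n • q) = val q ^ n := by
  induction n with
  | zero => simp [val]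
  | succ n ih => rw [succ_nsmul, val_add, ih, pow_succ]

open Classical in
noncomputable def EE (b : ℕ) : QP :=
  if h : 0 < b then Additive.ofMul ⟨(b : ℚ), by exact_mod_cast h⟩ else 0

lemma val_EE (b : ℕ) (h : 0 < b) : val (EE b) = b := by
  unfold EE
  rw [dif_pos h]
  rfl

lemma val_inj (p q : QP) (h : val p = val q) : p = q := by
  apply Additive.toMul.injective
  exact Subtype.ext h

lemma EE_CA : CA EE := by
  intro m n hm hn
  apply val_inj
  rw [val_add, val_EE _ (Nat.mul_pos (Nat.pos_of_ne_zero hm) (Nat.pos_of_ne_zero hn)),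
    val_EE _ (Nat.pos_of_ne_zero hm), val_EE _ (Nat.pos_of_ne_zero hn)]
  push_cast
  ring

/-- uniform finite form on the positive integers (exponents) -/
theorem exps (κ : Type) [Finite κ] (J : ℕ) : ∀ (C : ℕ → κ),
    ∃ k b : ℕ, 1 ≤ k ∧ 2 ≤ b ∧ C (k * b ^ b) = C k ∧
      ∀ j : ℕ, 1 ≤ j → j ≤ J → C (k * j ^ b) = C k := by
  classical
  have := Fintype.ofFinite κ
  obtain ⟨V, T, hT, hmain⟩ := PF κ (Fintype.card κ) QP EE EE_CA 0
    ((Finset.Icc 1 J).image EE)
  intro C
  set D : ℕ := ∏ q ∈ V, (val q).den with hD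
  have hDpos : 0 < D := Finset.prod_pos (fun q _ => (val q).den_pos)
  have hint : ∀ q ∈ V, ∃ k : ℕ, 1 ≤ k ∧ (D : ℚ) * val q = k := by
    intro q hq
    obtain ⟨e, he⟩ : (val q).den ∣ D := Finset.dvd_prod_of_mem _ hq
    have hnum : 0 < (val q).num := Rat.num_pos.mpr (val_pos q)
    refine ⟨e * (val q).num.toNat, ?_, ?_⟩
    · have he0 : 0 < e := by
        rcases Nat.eq_zero_or_pos e with h | h
        · rw [h] at he
          omega
        · exact h
      have h2 : 0 < (val q).num.toNat := by omega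
      exact Nat.mul_pos he0 h2
    · rw [he]
      push_cast
      have h1 : ((val q).num.toNat : ℚ) = (val q).num := by
        exact_mod_cast (Int.toNat_of_nonneg hnum.le)
      rw [h1]
      have h2 := Rat.den_mul_eq_num (val q)
      calc ((val q).den : ℚ) * (e : ℚ) * val q = e * ((val q).den * val q) := by ring
        _ = e * (val q).num := by rw [h2]
  obtain ⟨x, hx, b, hb, h1, h2⟩ := hmain (fun q => C ⌊(D : ℚ) * val q⌋₊) Finset.univ
    (le_of_eq (Finset.card_univ)) (fun _ _ => Finset.mem_univ _)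
  obtain ⟨k, hk1, hk⟩ := hint x hx
  have hb2 := hT b hb
  refine ⟨k, b, hk1, hb2, ?_, ?_⟩
  · have e1 : (D : ℚ) * val (x + b • (EE b + 0)) = ((k * b ^ b : ℕ) : ℚ) := by
      rw [add_zero, val_add, val_nsmul, val_EE _ (by omega), ← mul_assoc, hk]
      push_cast
      ring
    simp only [e1, hk, Nat.floor_natCast] at h1
    exact h1
  · intro j hj1 hjJ
    have h3 := h2 (EE j) (Finset.mem_image.mpr ⟨j, Finset.mem_Icc.mpr ⟨hj1, hjJ⟩, rfl⟩)
    have e1 : (D : ℚ) * val (x + b • (EE j)) = ((k * j ^ b : ℕ) : ℚ) := by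
      rw [val_add, val_nsmul, val_EE _ (by omega), ← mul_assoc, hk]
      push_cast
      ring
    simp only [e1, hk, Nat.floor_natCast] at h3
    exact h3

/-- pairs, any finite colouring and any base `g`. -/
theorem pairs (κ : Type) [Finite κ] (c : ℕ → κ) (g : ℕ) (hg : 1 < g) (J : ℕ) :
    ∃ k b : ℕ, 1 ≤ k ∧ 1 < b ∧ c ((g ^ k) ^ (b ^ b)) = c (g ^ k) ∧
      ∀ j : ℕ, 1 ≤ j → j ≤ J → c ((g ^ k) ^ (j ^ b)) = c (g ^ k) := by
  obtain ⟨k, b, hk, hb, h1, h2⟩ := exps κ J (fun n => c (g ^ n))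
  refine ⟨k, b, hk, hb, ?_, ?_⟩
  · rw [← pow_mul]
    exact h1
  · intro j hj hJ
    rw [← pow_mul]
    exact h2 j hj hJ

/-- dichotomy -/
theorem persist (κ : Type) [Finite κ] (c : ℕ → κ) (J : ℕ)
    (hp : ∀ i : κ, ∃ M : ℕ, ∀ a : ℕ, 1 < a → ∃ n : ℕ, 1 ≤ n ∧ n ≤ M ∧ c (a ^ n) = i) :
    ∃ a b : ℕ, 1 < a ∧ 1 < b ∧ c b = c a ∧ c (a ^ (b ^ b)) = c a ∧
      ∀ j : ℕ, 1 ≤ j → j ≤ J → c (a ^ (j ^ b)) = c a := by
  classical
  have := Fintype.ofFinite κ
  choose M hM using hp
  set L : ℕ := ∑ i, M i with hL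
  have hML : ∀ i, M i ≤ L := fun i => Finset.single_le_sum (fun _ _ => Nat.zero_le _)
    (Finset.mem_univ i)
  obtain ⟨k, b, hk, hb, h1, h2⟩ := exps (Fin (L + 1) → κ) J
    (fun m => fun n : Fin (L + 1) => c (2 ^ (m * (n : ℕ))))
  have ha : 1 < 2 ^ k := Nat.one_lt_two_pow (by omega)
  obtain ⟨n, hn1, hnM, hn⟩ := hM (c b) (2 ^ k) ha
  have hnL : n < L + 1 := by
    have := hML (c b)
    omega
  rw [← pow_mul] at hn
  refine ⟨2 ^ (k * n), b, Nat.one_lt_two_pow (by
    have := Nat.mul_pos (show 0 < k by omega) (show 0 < n by omega)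
    omega), by omega, hn.symm, ?_, ?_⟩
  · have h3 := congrFun h1 ⟨n, hnL⟩
    simp only at h3
    rw [← pow_mul, ← h3]
    congr 2
    ring
  · intro j hj hJ
    have h3 := congrFun (h2 j hj hJ) ⟨n, hnL⟩
    simp only at h3
    rw [← pow_mul, ← h3]
    congr 2
    ring

theorem two (c : ℕ → Bool) (J : ℕ) :
    ∃ a b : ℕ, 1 < a ∧ 1 < b ∧ c b = c a ∧ c (a ^ (b ^ b)) = c a ∧
      ∀ j : ℕ, 1 ≤ j → j ≤ J → c (a ^ (j ^ b)) = c a := by
  classical
  by_contra hno
  apply hno
  apply persist Bool c J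
  by_contra hp
  push Not at hp
  obtain ⟨i, hi⟩ := hp
  have key : ∀ b : ℕ, 1 < b → c b = i := by
    intro b hb
    by_contra hbi
    obtain ⟨a, ha, hall⟩ := hi (b ^ b + J ^ b + 1)
    apply hno
    have hcol : ∀ n : ℕ, 1 ≤ n → n ≤ b ^ b + J ^ b + 1 → c (a ^ n) = !i := by
      intro n h1 h2
      have := hall n h1 h2
      cases hc : c (a ^ n) <;> cases i <;> simp_all
    have hca : c a = !i := by
      have := hcol 1 le_rfl (by omega)
      simpa using this
    have hcb : c b = !i := by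
      cases hc : c b <;> cases i <;> simp_all
    refine ⟨a, b, ha, hb, by rw [hca, hcb], ?_, ?_⟩
    · rw [hca]
      exact hcol _ (Nat.one_le_pow _ _ (by omega)) (by omega)
    · intro j hj hJ
      rw [hca]
      have : j ^ b ≤ J ^ b := Nat.pow_le_pow_left hJ b
      exact hcol _ (Nat.one_le_pow _ _ (by omega)) (by omega)
  obtain ⟨a, ha, hall⟩ := hi 1
  have := hall 1 le_rfl le_rfl
  rw [pow_one] at this
  exact this (key a ha)

end Pool.Agent.L5helper91.EB
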